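import Pool.Agent.P.MP_16b5eb_nt.T1.IfA

/-! Step AVG. -/

set_option autoImplicit false

namespace Pool.Agent.P.MP_16b5eb_nt.T1

open Polynomial EP Finset
open scoped IntermediateField Classical

namespace AVGx

theorem fac {o N l : ℕ} (hN : 0 < N) (hl : l.Prime) (ho : o ∣ N) (h : ¬ o ∣ N / l) :
    N.factorization l ≤ o.factorization l := by
  obtain ⟨k, rfl⟩ := ho
  have hk : ¬ l ∣ k := by
    rintro ⟨j, rfl⟩
    refine h ⟨j, ?_⟩
    rw [mul_left_comm, Nat.mul_div_cancel_left _ hl.pos]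
  rw [Nat.factorization_mul (left_ne_zero_of_mul hN.ne') (right_ne_zero_of_mul hN.ne'),
    Finsupp.add_apply, Nat.factorization_eq_zero_of_not_dvd hk, add_zero]

end AVGx

theorem p_AVG :
    S_AVG := by
  intro G ι _ A p N hN hA h0 h1
  by_contra! hc
  have hd : ∀ a ∈ A, addOrderOf (p a) ∣ N := fun a ha => addOrderOf_dvd_of_nsmul_eq_zero (h0 a ha)
  have hne : ∀ a ∈ A, addOrderOf (p a) ^ 4 ≠ 0 := fun a ha =>
    pow_ne_zero _ (Nat.pos_of_dvd_of_pos (hd a ha) hN).ne'
  have hlt := prod_lt_prod_of_nonempty (fun a ha => Nat.pos_of_ne_zero (hne a ha)) hc hA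
  rw [prod_const] at hlt
  have hP := prod_ne_zero_iff.2 hne
  refine absurd (Nat.le_of_dvd (Nat.pos_of_ne_zero hP) ?_) (not_le.2 hlt)
  rw [← Nat.factorization_prime_le_iff_dvd (pow_ne_zero _ hN.ne') hP]
  intro l hl
  rw [Nat.factorization_pow, Nat.factorization_prod hne, Finsupp.smul_apply, smul_eq_mul,
    Finsupp.finsetSum_apply]
  by_cases hlN : l ∣ N
  swap
  · simp [Nat.factorization_eq_zero_of_not_dvd hlN]
  have h2 := h1 l hl hlN
  have h3 := card_filter_add_card_filter_not (s := A) fun a => (N / l) • p a = 0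
  calc #A * N.factorization l
      ≤ #(A.filter fun a => ¬ (N / l) • p a = 0) * 4 * N.factorization l :=
        Nat.mul_le_mul_right _ (by omega)
    _ = ∑ _a ∈ A.filter fun a => ¬ (N / l) • p a = 0, 4 * N.factorization l := by
        rw [sum_const, smul_eq_mul, mul_assoc]
    _ ≤ ∑ a ∈ A.filter fun a => ¬ (N / l) • p a = 0, (addOrderOf (p a) ^ 4).factorization l := by
        refine sum_le_sum fun a ha => ?_
        obtain ⟨a1, a2⟩ := mem_filter.1 ha
        rw [Nat.factorization_pow, Finsupp.smul_apply, smul_eq_mul]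
        exact Nat.mul_le_mul_left _ (AVGx.fac hN hl (hd a a1) fun e =>
          a2 (addOrderOf_dvd_iff_nsmul_eq_zero.1 e))
    _ ≤ _ := sum_le_sum_of_subset (filter_subset _ _)

end Pool.Agent.P.MP_16b5eb_nt.T1
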