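import Pool.Agent.P.MP_16b5eb_nt.T1.IfA

/-! Step CARD. -/

set_option autoImplicit false
set_option linter.unusedSectionVars false

namespace Pool.Agent.P.MP_16b5eb_nt.T1

open Polynomial EP Finset
open scoped IntermediateField Classical

namespace CARDx

variable (K : Type) [Field K] [CharP K 2] [IsAlgClosed K] (n : ℕ)

/-- The field with `2 ^ n` elements. -/
def Fq : Subfield K := (iterateFrobenius K 2 n).eqLocusField (RingHom.id K)

lemma card_Fq (h : n ≠ 0) : Nat.card (Fq K n) = 2 ^ n := by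
  have e : ∀ x, x ∈ Fq K n ↔ x ∈ (X ^ 2 ^ n - X : K[X]).rootSet K := fun x => by
    rw [mem_rootSet, and_iff_right (FiniteField.X_pow_card_pow_sub_X_ne_zero K h one_lt_two)]
    simp [Fq, sub_eq_zero, iterateFrobenius_def]
  rw [Nat.card_congr (Equiv.subtypeEquivRight e), Nat.card_eq_fintype_card,
    card_rootSet_eq_natDegree (galois_poly_separable 2 _ (dvd_pow_self 2 h)) (IsAlgClosed.splits _),
    FiniteField.X_pow_card_pow_sub_X_natDegree_eq K h one_lt_two]

variable {K}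

/-- The trace. -/
def tr (x : K) : K := ∑ i ∈ range n, x ^ 2 ^ i

lemma tr_add (x y : K) : tr n (x + y) = tr n x + tr n y := by
  simp only [tr, add_pow_char_pow, sum_add_distrib]

lemma tel (v : K) : tr n (v ^ 2 + v) = v ^ 2 ^ n + v := by
  induction n with
  | zero => simp [tr, CharTwo.add_self_eq_zero]
  | succ n ih =>
    rw [tr, sum_range_succ, ← tr, ih, add_pow_char_pow, ← pow_mul, ← pow_succ']
    grind

variable {n}

lemma tr_sq (x : Fq K n) : tr n ((x : K) ^ 2) = tr n (x : K) := by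
  have := tel n (x : K)
  rwa [show (x : K) ^ 2 ^ n = x from x.2, CharTwo.add_self_eq_zero, tr_add,
    CharTwo.add_eq_zero] at this

lemma tr_01 (x : Fq K n) : tr n (x : K) = 0 ∨ tr n (x : K) = 1 := by
  have h : tr n (x : K) ^ 2 = tr n (x : K) := by
    rw [tr, sum_pow_char]
    exact (sum_congr rfl fun i _ => by ring).trans (tr_sq x)
  grind

/-- The additive character. -/
noncomputable def ψ : AddChar (Fq K n) ℤ where
  toFun x := if tr n (x : K) = 0 then 1 else -1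
  map_zero_eq_one' := if_pos (by simp [tr])
  map_add_eq_mul' x y := by
    rw [Subfield.coe_add, tr_add]
    rcases tr_01 x with h | h <;> rcases tr_01 y with h' | h' <;>
      simp [h, h', CharTwo.add_self_eq_zero]

lemma ψ_def (x : Fq K n) : ψ x = if tr n (x : K) = 0 then 1 else -1 := rfl

lemma ψ_sq (x : Fq K n) : ψ (x ^ 2) = ψ x := by rw [ψ_def, ψ_def, SubmonoidClass.coe_pow, tr_sq]

lemma ψ_ne (h : n ≠ 0) : (ψ : AddChar (Fq K n) ℤ) ≠ 1 := by
  obtain ⟨a, ha⟩ := IsAlgClosed.exists_root (X ^ 2 ^ n + X - 1 : K[X]) (by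
    rw [add_sub_assoc, degree_add_eq_left_of_degree_lt] <;> rw [degree_X_pow]
    · simp
    · exact (degree_X_sub_C 1).trans_lt (by exact_mod_cast Nat.one_lt_two_pow h))
  have ha' : a ^ 2 ^ n + a = 1 := by simpa [sub_eq_zero] using ha
  refine AddChar.ne_one_iff.2 ⟨⟨a ^ 2 + a, show (a ^ 2 + a) ^ 2 ^ n = a ^ 2 + a from ?_⟩, ?_⟩
  · rw [add_pow_char_pow, pow_right_comm]
    grind
  · simp [ψ_def, tel, ha']

variable {j : ℕ} [Fintype (Fq K (2 * j))]

lemma sum_sq (h : j ≠ 0) : (∑ x : Fq K (2 * j), ψ (x ^ 3)) ^ 2 = 4 * 2 ^ (2 * j) := by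
  have h2 : 2 * j ≠ 0 := by omega
  have h4 : ∀ x : K, x ^ 2 ^ 2 = x → ∀ i, x ^ 2 ^ (2 * i) = x := fun x e i => by
    induction i with
    | zero => simp
    | succ i ih => rw [mul_add, pow_add, pow_mul, ih, mul_one, e]
  have c : (univ.filter fun z : Fq K (2 * j) => z + z ^ 4 = 0).card = 4 := by
    rw [← Fintype.card_subtype, ← Nat.card_eq_fintype_card]
    refine (Nat.card_congr ?_).trans (card_Fq K 2 two_ne_zero)
    exact ⟨fun z => ⟨z.1, (CharTwo.add_eq_zero.1 (congrArg Subtype.val z.2)).symm⟩,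
      fun z => ⟨⟨z, h4 z z.2 j⟩, Subtype.ext (CharTwo.add_eq_zero.2 z.2.symm)⟩,
      fun _ => rfl, fun _ => rfl⟩
  have s : ∀ z : Fq K (2 * j), ∑ x, ψ (x ^ 3) * ψ ((x + z) ^ 3) =
      if z + z ^ 4 = 0 then 2 ^ (2 * j) else 0 := fun z => by
    have e : ∀ x, ψ (x ^ 3) * ψ ((x + z) ^ 3) = ψ (z ^ 3) * ψ (x ^ 2 * (z + z ^ 4)) := fun x => by
      rw [mul_add, ψ.map_add_eq_mul, show x ^ 2 * z ^ 4 = (x * z ^ 2) ^ 2 by ring, ψ_sq,
        ← ψ.map_add_eq_mul, ← ψ.map_add_eq_mul, ← ψ.map_add_eq_mul]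
      exact congrArg ψ (by grind)
    rw [sum_congr rfl fun x _ => e x, ← mul_sum]
    refine (congrArg _ (((frobeniusEquiv _ 2).toEquiv.sum_comp fun x => ψ (x * (z + z ^ 4))).trans
      (AddChar.sum_mulShift _ (.of_ne_one (ψ_ne h2))))).trans ?_
    split_ifs with e
    · have : z ^ 3 = 0 ∨ z ^ 3 = 1 := by grind
      rcases this with e | e <;>
        simp [e, ψ_def, tr, ← Nat.card_eq_fintype_card, card_Fq K _ h2, CharTwo.two_eq_zero]
    · simp
  rw [sq, sum_mul_sum, sum_congr rfl fun x _ => (Equiv.sum_comp (Equiv.addLeft x) _).symm, sum_comm]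
  simp only [Equiv.coe_addLeft, s]
  rw [← sum_filter, sum_const, c]
  simp

lemma card_tor (h : j ≠ 0) {ε : ℤ} (hε : ε = 1 ∨ ε = -1) :
    (Nat.card (tor K (ε - (-2) ^ j)) : ℤ) =
      1 + 2 ^ (2 * j) + ε * ∑ x : Fq K (2 * j), ψ (x ^ 3) := by
  choose y hy using fun x : K => exists_y (x ^ 3)
  set A := univ.filter fun x : Fq K (2 * j) => ψ (x ^ 3) = ε
  have m : ∀ (x y : K) h, ap x y h ∈ tor K (ε - (-2) ^ j) ↔ ∃ a ∈ A, a = x := fun x y h => by
    obtain ⟨h', e⟩ := pow_ap j h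
    have t := tel (2 * j) y
    rw [mem_tor, sub_smul, e, sub_eq_zero]
    rcases hε with rfl | rfl
    · rw [one_smul, ap_inj]
      exact ⟨fun ⟨a, b⟩ => ⟨⟨x, a.symm⟩, by
        simp [A, ψ_def, ← h, t, ← b, CharTwo.add_self_eq_zero], rfl⟩, fun ⟨a, b, c⟩ => by
          subst c
          exact ⟨a.2.symm, Eq.symm (by simpa [A, ψ_def, ← h, t, CharTwo.add_eq_zero] using b)⟩⟩
    · rw [neg_smul, one_smul, neg_ap, ap_inj]
      exact ⟨fun ⟨a, b⟩ => ⟨⟨x, a.symm⟩, by
        simp [A, ψ_def, ← h, t, ← b, CharTwo.add_eq_zero], rfl⟩, fun ⟨a, b, c⟩ => by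
          subst c
          have := (tr_01 (a ^ 3)).resolve_left (by simpa [A, ψ_def] using b)
          rw [SubmonoidClass.coe_pow, ← h, t] at this
          exact ⟨a.2.symm, by grind⟩⟩
  let p : Fq K (2 * j) → EP K := fun x => ap x (y x) (hy x)
  have i : Function.Injective p := fun a b e => Subtype.ext (ap_inj.1 e).1
  have e : (tor K (ε - (-2) ^ j) : Set (EP K)) =
      (insert 0 (A.image p ∪ A.image fun x => -p x) : Finset (EP K)) := by
    ext P
    rcases cases P with rfl | ⟨x, z, h, rfl⟩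
    · simp
    simp only [SetLike.mem_coe, m, mem_insert, ap_ne, false_or, mem_union, mem_image]
    refine ⟨fun ⟨a, b, c⟩ => ?_, fun c => ?_⟩
    · subst c
      exact (eq_or_neg h (hy a)).imp (fun e => ⟨a, b, e.symm⟩) fun e => ⟨a, b, e.symm⟩
    · obtain ⟨a, b, c⟩ | ⟨a, b, c⟩ := c
      · exact ⟨a, b, (ap_inj.1 c).1⟩
      · exact ⟨a, b, (ap_inj.1 ((neg_ap _).symm.trans c)).1⟩
  have c : (2 * A.card : ℤ) = ∑ x : Fq K (2 * j), (1 + ε * ψ (x ^ 3)) := by
    rw [card_filter, Nat.cast_sum, mul_sum]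
    refine sum_congr rfl fun x _ => ?_
    rcases hε with rfl | rfl <;> rw [ψ_def] <;> split_ifs <;> simp_all
  rw [sum_add_distrib, ← mul_sum, sum_const, card_univ, ← Nat.card_eq_fintype_card,
    card_Fq K _ (by omega)] at c
  rw [← SetLike.coe_sort_coe, e, Nat.card_coe_set_eq, Set.ncard_coe_finset, card_insert_of_notMem,
    card_union_of_disjoint, card_image_of_injective _ i,
    card_image_of_injective (f := fun x => -p x) _ (neg_injective.comp i)]
  · simp only [nsmul_eq_mul] at c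
    push_cast at c ⊢
    linarith
  · simp only [disjoint_left, mem_image]
    rintro _ ⟨a, -, rfl⟩ ⟨b, -, e⟩
    obtain ⟨u, v⟩ := ap_inj.1 ((neg_ap _).symm.trans e)
    simp [u] at v
  · simp [p, ap_ne]

end CARDx

open CARDx in
theorem p_CARD :
    S_CARD := by
  intro K _ _ _ j ε hj hε
  have h : j ≠ 0 := by omega
  have : Finite (Fq K (2 * j)) := Nat.finite_of_card_ne_zero (by simp [card_Fq K (2 * j) (by omega)])
  have := Fintype.ofFinite (Fq K (2 * j))
  have s := sum_sq (K := K) h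
  have c1 := card_tor (K := K) h (.inl rfl)
  have c := card_tor (K := K) h hε
  obtain ⟨i, rfl⟩ : ∃ i, j = i + 2 := ⟨j - 2, by omega⟩
  have e : (2 : ℤ) ^ (2 * (i + 2)) = ((-2) ^ (i + 2)) ^ 2 := by
    rw [← pow_mul, mul_comm (i + 2), pow_mul, pow_mul]
    norm_num
  rw [e] at s c c1
  have t0 : (-2 : ℤ) ^ i ≠ 0 := by simp
  rw [show (-2 : ℤ) ^ (i + 2) = 4 * (-2) ^ i by ring] at s c c1 ⊢
  generalize (-2 : ℤ) ^ i = t at *
  generalize ∑ x : Fq K (2 * (i + 2)), ψ (x ^ 3) = S at *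
  rcases sq_eq_sq_iff_eq_or_eq_neg.1 (show S ^ 2 = (8 * t) ^ 2 by linarith) with rfl | rfl
  · have u : ∀ P : tor K (1 - 4 * t), P = 0 := fun P => by
      obtain ⟨a, b, e⟩ : IsCoprime (1 - 4 * t) ((1 + 4 * t) ^ 2) :=
        IsCoprime.pow_right ⟨1 + 2 * t, 2 * t, by ring⟩
      have h1 : (1 - 4 * t) • P = 0 := Subtype.ext P.2
      have h2 : (1 + 4 * t) ^ 2 • P = 0 := by
        rw [show (1 + 4 * t) ^ 2 = (Nat.card (tor K (1 - 4 * t)) : ℤ) by linarith, natCast_zsmul,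
          card_nsmul_eq_zero']
      simpa [add_smul, mul_smul, h1, h2] using (congrArg (· • P) e).symm
    rw [Nat.card_eq_one_iff_exists.2 ⟨0, u⟩] at c1
    have : t * (2 * t + 1) = 0 := by push_cast at c1; linarith
    rcases mul_eq_zero.1 this with e | e <;> omega
  · zify
    rcases hε with rfl | rfl <;> rw [sq_abs] <;> linarith

end Pool.Agent.P.MP_16b5eb_nt.T1
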