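import Pool.Agent.P.MP_16b5eb_nt.T1.Base

/-! The statements that do not involve places. -/

set_option autoImplicit false

namespace Pool.Agent.P.MP_16b5eb_nt.T1

open Polynomial EP Finset
open scoped IntermediateField Classical

-- deps:
def S_LANG : Prop := ∀ (k Ω : Type) [Field k] [CharP k 2] [IsAlgClosed k] [Field Ω] [CharP Ω 2]
  [IsAlgClosed Ω] [Algebra k Ω] (j : ℕ) (ε : ℤ) (ξ η : Ω) (h : η ^ 2 + η = ξ ^ 3), 1 ≤ j →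
  (ε = 1 ∨ ε = -1) → ξ ∉ (algebraMap k Ω).range →
  ∃ u v h', (ε - (-2) ^ j) • ap u v h' = ap ξ η h ∧
    ∀ (F : Type) [Field F] [Algebra F Ω], ξ ∈ (algebraMap F Ω).range → IsSeparable F u

-- deps:
def S_CARD : Prop := ∀ (K : Type) [Field K] [CharP K 2] [IsAlgClosed K] (j : ℕ) (ε : ℤ), 2 ≤ j →
  (ε = 1 ∨ ε = -1) → Nat.card (tor K (ε - (-2) ^ j)) = (ε - (-2) ^ j).natAbs ^ 2

-- deps: CARD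
def S_PROP : Prop := ∀ (K : Type) [Field K] [CharP K 2] [IsAlgClosed K] (j : ℕ) (ε : ℤ) (l : ℕ),
  2 ≤ j → (ε = 1 ∨ ε = -1) → l.Prime → (l : ℤ) ∣ ε - (-2) ^ j →
  3 * Nat.card (tor K ((ε - (-2) ^ j) / l)) ≤ Nat.card (tor K (ε - (-2) ^ j))

-- deps:
def S_TOR : Prop := ∀ (k Ω : Type) [Field k] [CharP k 2] [IsAlgClosed k] [Field Ω] [CharP Ω 2]
  [Algebra k Ω] (j : ℕ) (ε : ℤ) (T : EP Ω), 1 ≤ j → (ε = 1 ∨ ε = -1) →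
  (ε - (-2) ^ j) • T = 0 → T ∈ (mp (algebraMap k Ω)).range

-- deps:
def S_AVG : Prop := ∀ (G ι : Type) [AddCommGroup G] (A : Finset ι) (p : ι → G) (N : ℕ), 0 < N →
  A.Nonempty → (∀ a ∈ A, N • p a = 0) →
  (∀ l : ℕ, l.Prime → l ∣ N → 4 * (A.filter fun a => (N / l) • p a = 0).card ≤ 3 * A.card) →
  ∃ a ∈ A, N ≤ addOrderOf (p a) ^ 4

-- deps:
def S_RDP : Prop := ∀ (F : Type) [Field F] [CharP F 2] [Finite F] (m : ℕ) (μ : ℕ → F), μ 0 ≠ 0 →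
  μ m ≠ 0 → ∃ f : F[X], f.natDegree = 2 ^ (m + 1) + 1 ∧ f.eval 0 = 0 ∧
    ∀ (k : Type) [Field k] [CharP k 2] [IsAlgClosed k] [Algebra F k] (e : k),
      ∑ i ∈ range (m + 1), algebraMap F k (μ i) ^ 2 ^ (i + 1) * (e ^ 4 + e) ^ 2 ^ i = 0 →
      ∃ w : k[X], w ^ 2 + w = ((adp m μ).map (algebraMap F k) + C e) ^ 3 + f.map (algebraMap F k)

-- deps:
def S_ORD : Prop := ∀ (k : Type) [Field k] [CharP k 2] (e d : k) (h : d ^ 2 + d = e ^ 3) (N₀ : ℕ),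
  (∀ N : ℕ, 0 < N → N • ap e d h = 0 → N₀ ≤ N) → OrdGe (X ^ 3 : k[X]) 1 e d N₀

-- deps: RDP ORD
def S_DESC : Prop := ∀ (F k : Type) [Field F] [CharP F 2] [Finite F] [Field k] [CharP k 2]
  [IsAlgClosed k] [Algebra F k] (e d : k) (h : d ^ 2 + d = e ^ 3) (V : Submodule F k) (m N₀ : ℕ),
  FiniteDimensional F V → Module.finrank F V ≤ m → e ^ 4 + e ≠ 0 →
  (∀ i : ℕ, (e ^ 4 + e) ^ 2 ^ i ∈ V) → (∀ N : ℕ, 0 < N → N • ap e d h = 0 → N₀ ≤ N) →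
  ∃ (f : F[X]) (g : ℕ), g ≤ 2 ^ m ∧ f.natDegree = 2 * g + 1 ∧ f.eval 0 = 0 ∧ OrdGe f 1 0 0 N₀

-- deps:
def S_ORB : Prop := ∀ (k : Type) [Field k] [CharP k 2] [IsAlgClosed k] [Algebra (ZMod 2) k]
  (h K : ℕ), h.Prime → 2 < h → 0 < K → (∀ p : ℕ, p.Prime → p ∣ K → p ≤ 2 * h) →
  ∃ (c : k) (l : ℕ → ZMod 2) (s : Finset k), l 0 ≠ 0 ∧ l h ≠ 0 ∧
    ∑ i ∈ range (h + 1), algebraMap (ZMod 2) k (l i) * c ^ 2 ^ i = 0 ∧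
    c ^ 2 ^ (K * (2 ^ h - 1)) = c ∧
    (∀ j, 0 < j → j < 2 ^ h - 1 → (c ^ 2 ^ (K * j) + c) ^ 4 ≠ c ^ 2 ^ (K * j) + c) ∧
    s.card ≤ h ∧ ∀ i : ℕ, c ^ 2 ^ i ∈ AddSubgroup.closure (s : Set k)

-- deps:
def S_OM : Prop := ∀ (k : Type) [Field k], ∃ (Ω : Type) (_ : Field Ω) (_ : IsAlgClosed Ω)
  (_ : Algebra k Ω), Td k Ω ∧ ∃ x : Ω, Transcendental k x

-- deps:
def S_GEN : Prop := ∀ (k Ω : Type) [Field k] [CharP k 2] [Field Ω] [IsAlgClosed Ω] [Algebra k Ω]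
  (f : k[X]) (x y x' y' : Ω), Td k Ω → Odd f.natDegree → Transcendental k x → Transcendental k x' →
  y ^ 2 + y = aeval x f → y' ^ 2 + y' = aeval x' f → ∃ τ : Ω ≃ₐ[k] Ω, τ x = x' ∧ τ y = y'

-- deps: GEN
def S_SGN : Prop := ∀ (k Ω : Type) [Field k] [CharP k 2] [IsAlgClosed k] [Field Ω] [CharP Ω 2]
  [IsAlgClosed Ω] [Algebra k Ω] (X : Xd k) (x y : Ω) (h : y ^ 2 + y = aeval x X.f) (j : ℕ),
  Td k Ω → Transcendental k x → 0 < j → j < X.n → ∃ γ : Ω ≃ₐ[k] Ω,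
    (∃ a : k, γ x = x + algebraMap k Ω a) ∧ (∃ r : k[X], γ y = y + aeval x r) ∧
    mp (γ : Ω →+* Ω) (X.π X.n h) = X.π X.n h ∧ mp (γ : Ω →+* Ω) (X.π j h) = -X.π j h ∧
    ∀ i, mp (γ : Ω →+* Ω) (X.π i h) = X.π i h ∨ mp (γ : Ω →+* Ω) (X.π i h) = -X.π i h

-- deps: GEN TOR SGN
def S_ONTO : Prop := ∀ (k Ω : Type) [Field k] [CharP k 2] [IsAlgClosed k] [Field Ω] [CharP Ω 2]
  [IsAlgClosed Ω] [Algebra k Ω] (X : Xd k) (x y : Ω) (h : y ^ 2 + y = aeval x X.f),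
  Td k Ω → Transcendental k x → X.Pi h ∉ (mp (algebraMap k Ω)).range ∧
    ∀ (ε : ℤ) (S : EP Ω) (t : EP k), (ε = 1 ∨ ε = -1) → X.N ε • S = X.Pi h → X.N ε • t = 0 →
      ∃ τ : Ω ≃ₐ[k] Ω, τ x = x ∧ τ y = y ∧ mp (τ : Ω →+* Ω) S = S + mp (algebraMap k Ω) t

-- deps: GEN TOR LANG ONTO
def S_OMG : Prop := ∀ (k Ω : Type) [Field k] [CharP k 2] [IsAlgClosed k] [Field Ω] [CharP Ω 2]
  [IsAlgClosed Ω] [Algebra k Ω] (X : Xd k) (x : Ω), Td k Ω → Transcendental k x →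
  ∃ (y u v : Ω) (h : y ^ 2 + y = aeval x X.f) (h' : v ^ 2 + v = u ^ 3) (ε : ℤ) (σ : Ω ≃+* Ω)
    (ρ : Ω ≃ₐ[k] Ω), (ε = 1 ∨ ε = -1) ∧ X.N ε • ap u v h' = X.Pi h ∧
    IsSeparable k⟮x⟯ y ∧ IsSeparable k⟮x⟯ u ∧ IsSeparable k⟮x⟯ v ∧ X.Fro (σ : Ω →+* Ω) x y ∧
    mp (σ : Ω →+* Ω) (ap u v h') = (-2 : ℤ) ^ X.J • ap u v h' + X.π 1 h ∧ ρ x = x ∧ ρ y = y + 1

-- deps:
def S_NUM : Prop := ∀ (s h t g N N₀ cl : ℕ), 1 ≤ s → 1 ≤ h → h + 8 ≤ s * t → s * t < h + 8 + s →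
  g ≤ 2 ^ (h + 2 * t) → 2 ^ (s * t * (2 ^ h - 1)) ≤ N + 1 → N ≤ N₀ ^ 4 →
  cl * N₀ ≤ 2 * ((g + 1) ^ 2 * (2 ^ s) ^ g) →
  h ≤ N₀ ∧ (cl : ℝ) ≤ ((2 * g + 2 : ℕ) : ℝ) ^ 2 * ((2 ^ s : ℕ) : ℝ) ^ (((2 * g + 2 : ℕ) : ℝ) / 2) /
    ((2 * g + 2 : ℕ) : ℝ) ^ (((2 * g + 2 : ℕ) : ℝ) ^ ((s : ℝ) / (s + 2)) / 12288)

end Pool.Agent.P.MP_16b5eb_nt.T1
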