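import Pool.Agent.P.MP_16b5eb_nt.T1.IfA

/-! Step DESC. -/

set_option autoImplicit false

namespace Pool.Agent.P.MP_16b5eb_nt.T1

open Polynomial EP Finset
open scoped IntermediateField Classical

namespace DESCx

variable {F k : Type} [Field F] [Field k] [Algebra F k]

theorem dep (V : Submodule F k) [FiniteDimensional F V] (m : ℕ) (hm : Module.finrank F V ≤ m)
    (v : ℕ → k) (hv : ∀ i, v i ∈ V) : ∃ l : ℕ → F, (∃ i ≤ m, l i ≠ 0) ∧
      ∑ i ∈ range (m + 1), algebraMap F k (l i) * v i = 0 := by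
  have h : ¬ LinearIndependent F fun i : Fin (m + 1) => (⟨v i, hv i⟩ : V) := fun h => by
    have := h.fintype_card_le_finrank
    simp at this
    omega
  obtain ⟨g, h0, i, hi⟩ := Fintype.not_linearIndependent_iff.1 h
  refine ⟨fun j => if h : j < m + 1 then g ⟨j, h⟩ else 0, ⟨i, by omega, by
    simpa only [i.2, dif_pos] using hi⟩, ?_⟩
  have := congrArg Subtype.val h0
  rw [sum_range]
  simpa [Algebra.smul_def, Nat.lt_succ_iff.1 (Fin.is_lt _)] using this

variable [CharP F 2] [Finite F] [CharP k 2]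

theorem rt (n : ℕ) (a : F) : ∃ r : F, r ^ 2 ^ n = a :=
  (Finite.surjective_of_injective (iterateFrobenius F 2 n).injective) a

theorem trim (b : k) (m : ℕ) : ∀ l : ℕ → F, (∃ i ≤ m, l i ≠ 0) →
    ∑ i ∈ range (m + 1), algebraMap F k (l i) * b ^ 2 ^ i = 0 →
    ∃ (n : ℕ) (μ : ℕ → F), n ≤ m ∧ μ 0 ≠ 0 ∧ μ n ≠ 0 ∧
      ∑ i ∈ range (n + 1), algebraMap F k (μ i) * b ^ 2 ^ i = 0 := by
  induction m with
  | zero =>
    rintro l ⟨i, hi, h⟩ s
    obtain rfl := Nat.le_zero.1 hi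
    exact ⟨0, l, le_rfl, h, h, s⟩
  | succ m ih =>
    rintro l ⟨i, hi, h⟩ s
    by_cases a : l (m + 1) = 0
    · rw [sum_range_succ, a, map_zero, zero_mul, add_zero] at s
      obtain ⟨n, μ, c, d⟩ := ih l ⟨i, by by_contra c; exact h ((show i = m + 1 by omega) ▸ a), h⟩ s
      exact ⟨n, μ, by omega, d⟩
    by_cases c : l 0 = 0
    · choose r hr using fun j => rt 1 (l (j + 1))
      rw [sum_range_succ', c, map_zero, zero_mul, add_zero] at s
      obtain ⟨n, μ, c, d⟩ := ih r ⟨m, le_rfl, fun e => a (by rw [← hr, e]; simp)⟩ (by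
        refine pow_eq_zero_iff (two_ne_zero) |>.1 ?_
        rw [sum_pow_char, ← s]
        exact sum_congr rfl fun j _ => by
          rw [← hr, pow_one, map_pow, mul_pow, ← pow_mul, ← pow_succ])
      exact ⟨n, μ, by omega, d⟩
    · exact ⟨m + 1, l, le_rfl, c, a, s⟩

end DESCx

theorem p_DESC (hRDP : S_RDP) (hORD : S_ORD) :
    S_DESC := by
  intro F k _ _ _ _ _ _ _ e d h V m N₀ hV hm _ hb hN
  obtain ⟨l, l1, l2⟩ := DESCx.dep V m hm _ hb
  obtain ⟨n, ν, hn, ν0, ν1, hs⟩ := DESCx.trim _ m l l1 l2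
  choose μ hμ using fun j => DESCx.rt (j + 1) (ν j)
  have nz : ∀ j, ν j ≠ 0 → μ j ≠ 0 := fun j a c => a (by rw [← hμ, c]; simp)
  obtain ⟨f, f1, f0, hf⟩ := hRDP F n μ (nz 0 ν0) (nz n ν1)
  obtain ⟨w, hw⟩ := hf k e (by simpa only [← map_pow, hμ] using hs)
  refine ⟨f, 2 ^ n, Nat.pow_le_pow_right two_pos hn, by rw [f1, pow_succ'], f0, ?_⟩
  apply ordGe_of_map (algebraMap F k)
  have z : ∀ p : F[X], p.eval 0 = 0 → (p.map (algebraMap F k)).eval 0 = 0 := fun p hp => by
    rw [← map_zero (algebraMap F k), eval_map_apply, hp]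
  have hw0 : w.eval 0 ^ 2 + w.eval 0 = e ^ 3 := by
    simpa only [eval_add, eval_pow, z _ f0, z _ (adp_zero n μ), eval_C, zero_add, add_zero] using
      congrArg (eval 0) hw
  have h2 : (2 : k) = 0 := CharTwo.two_eq_zero
  have h2' : (2 : k[X]) = 0 := CharTwo.two_eq_zero
  let Q : Pt (X ^ 3 : k[X]) 1 := ⟨e, w.eval 0, by
    simp only [eval_pow, eval_X, eval_one]
    linear_combination hw0 - w.eval 0 * h2, by simp [h2]⟩
  simp only [Polynomial.map_one, map_zero]
  refine push (ψ := (adp n μ).map (algebraMap F k) + C e) (w := w) (u := 1) ?_ one_ne_zero ?_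
    (by simp [h2']) Q (by simp [Q, z _ (adp_zero n μ)]) (by simp [Q])
    (hORD k e _ hw0 N₀ fun N a c => hN N a ?_)
  · rw [natDegree_add_C, natDegree_map, adp_deg n μ (nz 0 ν0)]
    positivity
  · simp only [map_one, one_pow, one_mul, pow_comp, X_comp, one_comp]
    linear_combination hw + (f.map (algebraMap F k) - w) * h2'
  · rcases eq_or_neg h hw0 with r | r <;> simp [r, c]

end Pool.Agent.P.MP_16b5eb_nt.T1
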