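import Pool.Agent.P.MP_16b5eb_nt.T1.IfA

/-! Step GEN. -/

set_option autoImplicit false

namespace Pool.Agent.P.MP_16b5eb_nt.T1

open Polynomial EP Finset
open scoped IntermediateField Classical

namespace GENx

theorem poly {k : Type} [Field k] (f r s : k[X]) (hf : Odd f.natDegree) (hs : s ≠ 0) :
    r * (r + s) ≠ f * s ^ 2 := by
  intro h
  obtain ⟨m, hm⟩ := hf
  have f0 : f ≠ 0 := by rintro rfl; simp at hm
  have n0 : f * s ^ 2 ≠ 0 := mul_ne_zero f0 (pow_ne_zero _ hs)
  have d := congrArg natDegree h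
  rw [← h] at n0
  rw [natDegree_mul (left_ne_zero_of_mul n0) (right_ne_zero_of_mul n0),
    natDegree_mul f0 (pow_ne_zero _ hs), natDegree_pow, hm] at d
  rcases lt_or_ge s.natDegree r.natDegree with l | l
  · rw [natDegree_add_eq_left_of_natDegree_lt l] at d
    omega
  · have := natDegree_add_le r s
    rw [max_eq_right l] at this
    omega

theorem notMem {k Ω : Type} [Field k] [Field Ω] [Algebra k Ω] (f : k[X]) (x y : Ω)
    (hf : Odd f.natDegree) (hx : Transcendental k x) (h : y ^ 2 + y = aeval x f) :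
    y ∉ k⟮x⟯ := by
  intro hy
  obtain ⟨r, s, e⟩ := (IntermediateField.mem_adjoin_simple_iff k y).1 hy
  have inj := transcendental_iff_injective.1 hx
  by_cases hs : s = 0
  · subst hs
    simp only [map_zero, div_zero] at e
    subst e
    have : f = 0 := inj (by simpa using h.symm)
    subst this
    simp at hf
  · have s0 : aeval x s ≠ 0 := fun z => hs (inj (by simpa using z))
    refine poly f r s hf hs (inj ?_)
    simp only [map_mul, map_add, map_pow]
    rw [← h, e]
    field_simp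

theorem nrm {F Ω : Type} [Field F] [Field Ω] [IsAlgClosed Ω] [Algebra F Ω]
    (a : Algebra.IsAlgebraic F Ω) : Normal F Ω :=
  have : IsAlgClosure F Ω := ⟨inferInstance, a⟩
  IsAlgClosure.normal F Ω

theorem swap {k Ω : Type} [Field k] [Field Ω] [CharP Ω 2] [IsAlgClosed Ω] [Algebra k Ω]
    (f : k[X]) (x y : Ω) (ha : Algebra.IsAlgebraic k⟮x⟯ Ω) (hf : Odd f.natDegree)
    (hx : Transcendental k x) (h : y ^ 2 + y = aeval x f) :
    ∃ ρ : Ω ≃ₐ[k] Ω, ρ x = x ∧ ρ (y + 1) = y := by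
  have : Normal k⟮x⟯ Ω := nrm ha
  set c : k⟮x⟯ := aeval (IntermediateField.AdjoinSimple.gen k x) f with hc
  have cc : algebraMap k⟮x⟯ Ω c = aeval x f := by
    rw [hc, ← aeval_algebraMap_apply, IntermediateField.AdjoinSimple.algebraMap_gen]
  have hi : IsIntegral k⟮x⟯ y := (ha.isAlgebraic y).isIntegral
  have mo : (X ^ 2 + X - C c : k⟮x⟯[X]).Monic := by monicity!
  have dg : (X ^ 2 + X - C c : k⟮x⟯[X]).natDegree = 2 := by compute_degree!
  have dv : minpoly k⟮x⟯ y ∣ X ^ 2 + X - C c := minpoly.dvd _ _ (by simp [cc, h])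
  have two : 2 ≤ (minpoly k⟮x⟯ y).natDegree := (minpoly.two_le_natDegree_iff hi).2 (by
    rintro ⟨z, hz⟩
    exact notMem f x y hf hx h (hz ▸ z.2))
  have eq := eq_of_monic_of_dvd_of_natDegree_le (minpoly.monic hi) mo dv (dg.trans_le two)
  have t : (2 : Ω) = 0 := CharTwo.two_eq_zero
  obtain ⟨σ, hσ⟩ := minpoly.exists_algEquiv_of_root (K := k⟮x⟯) (x := y + 1) (ha.isAlgebraic y) (by
    rw [← eq]
    simp only [map_sub, map_add, map_pow, aeval_X, aeval_C, cc, ← h]
    linear_combination (y + 1) * t)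
  exact ⟨σ.restrictScalars k, σ.commutes (IntermediateField.AdjoinSimple.gen k x), hσ⟩

theorem ext {k F F' : Type} (Ω : Type) [Field k] [Field F] [Field F'] [Field Ω] [IsAlgClosed Ω]
    [Algebra k F] [Algebra k F'] [Algebra k Ω] [Algebra F Ω] [Algebra F' Ω] [IsScalarTower k F Ω]
    [IsScalarTower k F' Ω] (a : Algebra.IsAlgebraic F Ω) (a' : Algebra.IsAlgebraic F' Ω)
    (e : F ≃ₐ[k] F') : ∃ τ : Ω ≃ₐ[k] Ω, ∀ z, τ (algebraMap F Ω z) = algebraMap F' Ω (e z) := by
  have : IsAlgClosure F Ω := ⟨inferInstance, a⟩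
  have : IsAlgClosure F' Ω := ⟨inferInstance, a'⟩
  refine ⟨AlgEquiv.ofRingEquiv (f := IsAlgClosure.equivOfEquiv Ω Ω e.toRingEquiv) fun c => ?_,
    IsAlgClosure.equivOfEquiv_algebraMap Ω Ω e.toRingEquiv⟩
  conv_lhs => rw [IsScalarTower.algebraMap_apply k F Ω, IsAlgClosure.equivOfEquiv_algebraMap]
  rw [IsScalarTower.algebraMap_apply k F' Ω]
  exact congrArg _ (e.commutes c)

end GENx

theorem p_GEN :
    S_GEN := by
  intro k Ω _ _ _ _ _ f x y x' y' td hf hx hx' h h'
  have : CharP Ω 2 := charP_of_injective_algebraMap (algebraMap k Ω).injective 2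
  obtain ⟨τ, e⟩ := GENx.ext Ω (td x hx) (td x' hx') ((RatFunc.algEquivOfTranscendental x hx).symm.trans
    (RatFunc.algEquivOfTranscendental x' hx'))
  have hτ : τ x = x' := by
    have := e (IntermediateField.AdjoinSimple.gen k x)
    rw [AlgEquiv.trans_apply, RatFunc.algEquivOfTranscendental_symm_gen] at this
    exact this.trans (RatFunc.algEquivOfTranscendental_X x' hx')
  have hy : τ y ^ 2 + τ y = y' ^ 2 + y' := by
    rw [h', ← map_pow, ← map_add, h, ← hτ, aeval_algHom_apply]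
  rcases root hy with r | r
  · exact ⟨τ, hτ, r⟩
  · obtain ⟨ρ, a, b⟩ := GENx.swap f x' y' (td x' hx') hf hx' h'
    exact ⟨τ.trans ρ, by rw [AlgEquiv.trans_apply, hτ, a], by rw [AlgEquiv.trans_apply, r, b]⟩

end Pool.Agent.P.MP_16b5eb_nt.T1
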