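import Pool.Agent.P.MP_16b5eb_nt.T1.IfA

/-! Step NUM. -/

set_option autoImplicit false

namespace Pool.Agent.P.MP_16b5eb_nt.T1

open Polynomial EP Finset
open scoped IntermediateField Classical

namespace NUMx

theorem bound {d L x y : ℝ} (hd : 1 ≤ d) (h : d ≤ 2 ^ L) (hx : 0 ≤ x) (hy : L * x ≤ y) :
    d ^ x ≤ 2 ^ y := by
  refine (Real.rpow_le_rpow (by linarith) h hx).trans ?_
  rw [← Real.rpow_mul (by norm_num)]
  exact Real.rpow_le_rpow_of_exponent_le one_le_two hy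

end NUMx

theorem p_NUM :
    S_NUM := by
  intro s h t g N N₀ cl hs hh h1 h2 hg hN hN0 hcl
  have ht : t ≤ s * t := Nat.le_mul_of_pos_left t hs
  have h3 : s * (h + 2 * t + 2) ≤ (h + 8) * (s + 2) := by nlinarith
  set J := s * t with hJ
  have p1 : h < 2 ^ h := Nat.lt_two_pow_self
  obtain ⟨n, hn⟩ : ∃ n, 2 ^ h = n + 1 := ⟨2 ^ h - 1, by omega⟩
  rw [hn, Nat.add_sub_cancel] at hN
  have p2 : 9 * n ≤ J * n := Nat.mul_le_mul_right n (by omega)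
  have p3 : J ≤ J * n := Nat.le_mul_of_pos_right J (by omega)
  obtain ⟨m, hm⟩ : ∃ m, J * n = m + 1 := ⟨J * n - 1, by omega⟩
  have p4 : 2 ^ m ≤ N₀ ^ 4 := by
    rw [hm, pow_succ] at hN
    have : 1 ≤ 2 ^ m := Nat.one_le_two_pow
    omega
  have p5 : J * 2 ^ h ≤ 4 * m := by rw [hn, mul_add]; omega
  have p6 : 2 ^ h ≤ N₀ := by
    refine le_of_pow_le_pow_left₀ (n := 4) (by norm_num) (Nat.zero_le _) (le_trans ?_ p4)
    rw [← pow_mul]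
    exact Nat.pow_le_pow_right (by norm_num) (by omega)
  refine ⟨by omega, ?_⟩
  have d1 : (1 : ℝ) ≤ ((2 * g + 2 : ℕ) : ℝ) := by exact_mod_cast (by omega : 1 ≤ 2 * g + 2)
  have d2 : ((2 * g + 2 : ℕ) : ℝ) ≤ 2 ^ ((h + 2 * t + 2 : ℕ) : ℝ) := by
    rw [Real.rpow_natCast]
    have a : 1 ≤ 2 ^ (h + 2 * t) := Nat.one_le_two_pow
    have b : 2 * g + 2 ≤ 2 ^ (h + 2 * t + 2) := by rw [pow_add _ _ 2]; omega
    exact_mod_cast b
  have d3 : ((2 * g + 2 : ℕ) : ℝ) ^ ((s : ℝ) / (s + 2)) ≤ 2 ^ ((h + 8 : ℕ) : ℝ) := by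
    refine NUMx.bound d1 d2 (by positivity) ?_
    rw [← mul_div_assoc, div_le_iff₀ (by positivity), mul_comm]
    exact_mod_cast h3
  rw [Real.rpow_natCast, pow_add] at d3
  have d4 : ((2 * g + 2 : ℕ) : ℝ) ^ (((2 * g + 2 : ℕ) : ℝ) ^ ((s : ℝ) / (s + 2)) / 12288) ≤
      2 ^ ((m : ℝ) / 4) := by
    refine NUMx.bound d1 d2 (by positivity) ?_
    have a : ((h + 2 * t + 2 : ℕ) : ℝ) ≤ 3 * J := by
      exact_mod_cast (by omega : h + 2 * t + 2 ≤ 3 * J)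
    have b : (J : ℝ) * 2 ^ h ≤ 4 * m := by exact_mod_cast p5
    calc _ ≤ (3 * J : ℝ) * (2 ^ h * 2 ^ 8 / 12288) := by gcongr
      _ = J * 2 ^ h / 16 := by ring
      _ ≤ _ := by linarith
  have d5 : (2 : ℝ) ^ ((m : ℝ) / 4) ≤ N₀ := by
    refine le_of_pow_le_pow_left₀ (n := 4) (by norm_num) (Nat.cast_nonneg _) ?_
    rw [← Real.rpow_natCast, ← Real.rpow_mul (by norm_num), show (m : ℝ) / 4 * (4 : ℕ) = m by
      push_cast; ring, Real.rpow_natCast]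
    exact_mod_cast p4
  have hq : (1 : ℝ) ≤ ((2 ^ s : ℕ) : ℝ) := by exact_mod_cast Nat.one_le_two_pow
  have H : (cl : ℝ) * N₀ ≤ 2 * ((g + 1) ^ 2 * ((2 ^ s : ℕ) : ℝ) ^ g) := by exact_mod_cast hcl
  generalize ((2 ^ s : ℕ) : ℝ) = q at hq H ⊢
  have e1 : q ^ (((2 * g + 2 : ℕ) : ℝ) / 2) = q ^ (g + 1) := by
    rw [← Real.rpow_natCast]; congr 1; push_cast; ring
  rw [e1, le_div_iff₀ (by positivity)]
  have p7 : (0 : ℝ) ≤ (g + 1) ^ 2 * q ^ g := by positivity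
  calc _ ≤ (cl : ℝ) * N₀ := mul_le_mul_of_nonneg_left (d4.trans d5) (Nat.cast_nonneg _)
    _ ≤ 4 * ((g + 1) ^ 2 * q ^ g) * 1 := by linarith
    _ ≤ 4 * ((g + 1) ^ 2 * q ^ g) * q := by gcongr
    _ = _ := by push_cast; ring

end Pool.Agent.P.MP_16b5eb_nt.T1
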