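import Pool.Agent.P.MP_16b5eb_nt.T1.IfA

/-! Step OMG. -/

set_option autoImplicit false

namespace Pool.Agent.P.MP_16b5eb_nt.T1

open Polynomial EP Finset
open scoped IntermediateField Classical

namespace OMGx

theorem sep_as {F Ω : Type} [Field F] [Field Ω] [CharP Ω 2] [Algebra F Ω] {y : Ω} {c : F}
    (h : y ^ 2 + y = algebraMap F Ω c) : IsSeparable F y := by
  have : CharP F 2 := (RingHom.charP_iff_charP (algebraMap F Ω) 2).2 inferInstance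
  have hp : (X ^ 2 + X - C c : F[X]).Separable := by
    rw [separable_def']
    refine ⟨0, 1, ?_⟩
    simp [CharTwo.add_self_eq_zero]
  exact hp.of_dvd (minpoly.dvd F y (by simp [h]))

theorem sep_step {A Ω : Type} [Field A] [Field Ω] [Algebra A Ω] {y u : Ω} (hy : IsSeparable A y)
    (hu : IsSeparable A⟮y⟯ u) : IsSeparable A u := by
  have := (IntermediateField.isSeparable_adjoin_simple_iff_isSeparable A Ω).2 hy
  exact IsSeparable.of_algebra_isSeparable_of_isSeparable A hu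

variable {k Ω : Type} [Field k] [CharP k 2] [Field Ω] [CharP Ω 2] [Algebra k Ω] (X : Xd k)

theorem mem_B {x y ξ η : Ω} (h : y ^ 2 + y = aeval x X.f) (e : η ^ 2 + η = ξ ^ 3)
    (hP : X.Pi h = ap ξ η e) : ξ ∈ (algebraMap (k⟮x⟯)⟮y⟯ Ω).range := by
  have : CharP (k⟮x⟯)⟮y⟯ 2 := (RingHom.charP_iff_charP (algebraMap (k⟮x⟯)⟮y⟯ Ω) 2).2 inferInstance
  let φ : (k⟮x⟯)⟮y⟯ →ₐ[k] Ω := { algebraMap (k⟮x⟯)⟮y⟯ Ω with commutes' := fun _ => rfl }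
  let x' : (k⟮x⟯)⟮y⟯ := algebraMap k⟮x⟯ _ (IntermediateField.AdjoinSimple.gen k x)
  let y' : (k⟮x⟯)⟮y⟯ := IntermediateField.AdjoinSimple.gen k⟮x⟯ y
  have hx : φ x' = x := rfl
  have hy : φ y' = y := rfl
  have h' : y' ^ 2 + y' = aeval x' X.f := by
    apply φ.toRingHom.injective
    change φ _ = φ _
    rw [map_add, map_pow, hy, ← aeval_algHom_apply, hx, h]
  have := X.mp_Pi φ hx hy h' h
  exact ((mem_range (φ : (k⟮x⟯)⟮y⟯ →+* Ω) e).1 ⟨_, this.trans hP⟩).1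

theorem eq_fr {x y : Ω} (h : y ^ 2 + y = aeval x X.f) :
    (y ^ 2 ^ (2 * X.J)) ^ 2 + y ^ 2 ^ (2 * X.J) = aeval (x ^ 2 ^ (2 * X.J)) X.f := by
  have e := congrArg (iterateFrobenius Ω 2 (2 * X.J)) h
  rw [map_add, map_pow, aeval_def, hom_eval₂] at e
  simp only [iterateFrobenius_def] at e
  rw [e]
  conv_rhs => rw [← X.fσ, aeval_def, eval₂_map]
  congr 1
  ext a
  simp [iterateFrobenius_def]

theorem eq_δ {x y : Ω} (h : y ^ 2 + y = aeval x X.f) :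
    (y + algebraMap k Ω X.δ) ^ 2 + (y + algebraMap k Ω X.δ) = aeval x X.f := by
  rcases X.hδ with e | e
  · simpa [e] using h
  · simpa [e] using X.eq_one h

theorem odd_f : Odd X.f.natDegree := by
  rw [X.hf, pow_succ]
  exact ⟨2 ^ X.m, by ring⟩

end OMGx

theorem p_OMG (hGEN : S_GEN) (hTOR : S_TOR) (hLANG : S_LANG) (hONTO : S_ONTO) :
    S_OMG := by
  intro k Ω _ _ _ _ _ _ _ X x hT hx
  obtain ⟨y, h⟩ := exists_y (aeval x X.f)
  obtain ⟨ε, hε, eπ⟩ : ∃ ε : ℤ, (ε = 1 ∨ ε = -1) ∧ X.π X.n h = ε • X.π 0 h := by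
    rcases X.π_n h with e | e
    · exact ⟨1, .inl rfl, by simpa using e⟩
    · exact ⟨-1, .inr rfl, by simpa using e⟩
  obtain ⟨hn, hon⟩ := hONTO k Ω X x y h hT hx
  have hj : 1 ≤ X.J * X.n := Nat.mul_pos (by have := X.hJ; omega) X.hn
  rcases cases (X.Pi h) with e0 | ⟨ξ, η, e, hP⟩
  · exact (hn (e0 ▸ zero_mem _)).elim
  obtain ⟨u, v, h', hN, hs⟩ := hLANG k Ω (X.J * X.n) ε ξ η e hj hε
    fun m => hn (hP ▸ (mem_range' _ e).2 m)
  have hS : X.N ε • ap u v h' = X.Pi h := hN.trans hP.symm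
  have sy : IsSeparable k⟮x⟯ y :=
    OMGx.sep_as (c := aeval (IntermediateField.AdjoinSimple.gen k x) X.f)
      (by rw [h, ← aeval_algebraMap_apply]; rfl)
  have su : IsSeparable k⟮x⟯ u := OMGx.sep_step sy (hs _ (OMGx.mem_B X h e hP))
  have sv : IsSeparable k⟮x⟯ v := OMGx.sep_step su
    (OMGx.sep_as (c := IntermediateField.AdjoinSimple.gen k⟮x⟯ u ^ 3) (by rw [h', map_pow]; rfl))
  obtain ⟨τ0, t1, t2⟩ := hGEN k Ω X.f _ _ _ _ hT (OMGx.odd_f X)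
    (hx.pow (Nat.pos_of_ne_zero (by positivity))) hx (OMGx.eq_fr X h) (OMGx.eq_δ X h)
  obtain ⟨ρ, r1, r2⟩ := hGEN k Ω X.f _ _ _ _ hT (OMGx.odd_f X) hx hx h (X.eq_one h)
  let σ0 : Ω ≃+* Ω := (iterateFrobeniusEquiv Ω 2 (2 * X.J)).trans τ0.toRingEquiv
  have s0 : ∀ a, (σ0 : Ω →+* Ω) a = τ0 (a ^ 2 ^ (2 * X.J)) := fun a => rfl
  have f0 : X.Fro (σ0 : Ω →+* Ω) x y :=
    ⟨fun a => by rw [s0, ← map_pow, AlgEquiv.commutes], by rw [s0, t1], by rw [s0, t2]⟩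
  have hD : X.N ε • (mp (σ0 : Ω →+* Ω) (ap u v h') - (-2 : ℤ) ^ X.J • ap u v h' - X.π 1 h) = 0 := by
    rw [smul_sub, smul_sub, ← map_zsmul, smul_comm, hS, f0.Pi h eπ]
    abel
  obtain ⟨g, hg⟩ := hTOR k Ω (X.J * X.n) ε _ hj hε hD
  have hg0 : X.N ε • g = 0 := mp_inj (algebraMap k Ω) (by rw [map_zsmul, hg, hD, map_zero])
  let t : EP k := -mp ((iterateFrobeniusEquiv k 2 (2 * X.J)).symm : k →+* k) g
  have ht : (-2 : ℤ) ^ X.J • t = -g := by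
    rw [smul_neg, ← fr_even, mp_mp]
    congr 1
    refine Eq.trans (congrArg (mp · g) (RingHom.ext fun a => ?_)) (mp_id g)
    exact (iterateFrobeniusEquiv k 2 (2 * X.J)).apply_symm_apply a
  obtain ⟨τ, a1, a2, a3⟩ := hon ε _ t hε hS (by rw [smul_neg, ← map_zsmul, hg0, map_zero, neg_zero])
  have s1 : ∀ a, ((σ0.trans τ.toRingEquiv : Ω ≃+* Ω) : Ω →+* Ω) a = τ ((σ0 : Ω →+* Ω) a) :=
    fun a => rfl
  refine ⟨y, u, v, h, h', ε, σ0.trans τ.toRingEquiv, ρ, hε, hS, sy, su, sv,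
    ⟨fun a => by rw [s1, f0.c, AlgEquiv.commutes], by rw [s1, f0.x, a1],
      by rw [s1, f0.y, map_add, a2, AlgEquiv.commutes]⟩, ?_, r1, r2⟩
  have e1 : mp (σ0 : Ω →+* Ω) (ap u v h') =
      (-2 : ℤ) ^ X.J • ap u v h' + X.π 1 h + mp (algebraMap k Ω) g := by
    rw [hg]
    abel
  have e2 : mp ((σ0.trans τ.toRingEquiv : Ω ≃+* Ω) : Ω →+* Ω) (ap u v h') =
      mp (τ : Ω →+* Ω) (mp (σ0 : Ω →+* Ω) (ap u v h')) := rfl
  have e3 : mp (τ : Ω →+* Ω) (X.π 1 h) = X.π 1 h := X.mp_π (τ : Ω →ₐ[k] Ω) a1 a2 1 h h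
  have e4 : mp (τ : Ω →+* Ω) (mp (algebraMap k Ω) g) = mp (algebraMap k Ω) g :=
    Xd.mp_const (τ : Ω →ₐ[k] Ω) g
  rw [e2, e1, map_add, map_add, map_zsmul, a3, e3, e4, smul_add, ← map_zsmul _ _ t, ht, map_neg]
  abel

end Pool.Agent.P.MP_16b5eb_nt.T1
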