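import Pool.Agent.P.MP_16b5eb_nt.T1.IfA

/-! Step ONTO. -/

set_option autoImplicit false
set_option linter.unusedSectionVars false

namespace Pool.Agent.P.MP_16b5eb_nt.T1

open Polynomial EP Finset
open scoped IntermediateField Classical

namespace ONTOx

variable {k Ω : Type} [Field k] [CharP k 2] [Field Ω] [CharP Ω 2] [Algebra k Ω]

/-- The action of the automorphisms. -/
noncomputable abbrev act (τ : Ω ≃ₐ[k] Ω) : EP Ω →+ EP Ω := mp (τ : Ω →+* Ω)

theorem act_mul (σ τ : Ω ≃ₐ[k] Ω) (P : EP Ω) : act (σ * τ) P = act σ (act τ P) :=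
  (mp_mp (τ : Ω →+* Ω) (σ : Ω →+* Ω) P).symm

theorem act_one (P : EP Ω) : act (1 : Ω ≃ₐ[k] Ω) P = P := mp_id P

theorem act_c (τ : Ω ≃ₐ[k] Ω) {g : EP Ω} (h : g ∈ (mp (algebraMap k Ω)).range) :
    act τ g = g := by
  obtain ⟨T, rfl⟩ := h
  exact Xd.mp_const (τ : Ω →ₐ[k] Ω) T

theorem rng [IsAlgClosed k] {u : Ω} (h : IsAlgebraic k u) : u ∈ (algebraMap k Ω).range :=
  minpoly.mem_range_of_degree_eq_one k u
    (IsAlgClosed.degree_eq_one_of_irreducible k (minpoly.irreducible h.isIntegral))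

theorem nc (X : Xd k) {x y : Ω} (h : y ^ 2 + y = aeval x X.f) (hx : Transcendental k x)
    (i j : ℕ) : (-2 : ℤ) ^ j • X.π i h ∉ (mp (algebraMap k Ω)).range := by
  obtain ⟨h', e⟩ := pow_ap j (X.eqπ i h)
  rw [Xd.π, e, EP.mem_range]
  rintro ⟨⟨a, ha⟩, -⟩
  have h1 : Transcendental k (aeval x ((X.L + C (X.cj i)) ^ 2 ^ (2 * j))) := by
    refine hx.aeval _ ?_ (mem_nonZeroDivisors_of_ne_zero (leadingCoeff_ne_zero.2 (pow_ne_zero _
      fun e => ?_)))
    · rw [natDegree_pow, natDegree_add_C, X.hL]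
      positivity
    · have := congrArg natDegree e
      rw [natDegree_add_C, X.hL, natDegree_zero] at this
      exact absurd this (by positivity)
  rw [map_pow, map_add, aeval_C, ← ha] at h1
  exact h1 (isAlgebraic_algebraMap a)

theorem step [IsAlgClosed k] [IsAlgClosed Ω] (hSGN : S_SGN) (X : Xd k) {x y : Ω}
    (h : y ^ 2 + y = aeval x X.f) (hT : Td k Ω) (hx : Transcendental k x) (j : ℕ) :
    j < X.n → ∃ (Θ : EP Ω →+ EP Ω) (m : ℕ → ℤ),
      Θ (X.Pi h) = ∑ i ∈ range X.n, m i • X.π (i + 1) h ∧ m (X.n - 1) = (-2) ^ j ∧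
      (∀ i < j, m i = 0) ∧ (∀ g ∈ (mp (algebraMap k Ω)).range, Θ g ∈ (mp (algebraMap k Ω)).range) ∧
      ∀ G ≤ (mp (algebraMap k Ω)).range, ∀ S,
        (∀ τ : Ω ≃ₐ[k] Ω, τ x = x → τ y = y → act τ S - S ∈ G) →
          ∀ τ : Ω ≃ₐ[k] Ω, τ x = x → τ y = y → act τ (Θ S) - Θ S ∈ G := by
  induction j with
  | zero =>
    exact fun _ => ⟨AddMonoidHom.id _, fun i => (-2) ^ (X.J * (X.n - 1 - i)), rfl, by simp,
      by simp, fun _ hg => hg, fun _ _ _ hS => hS⟩
  | succ j ih =>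
    intro hj
    obtain ⟨Θ, m, a1, a2, a3, a4, a5⟩ := ih (by omega)
    obtain ⟨γ, ⟨a, ga⟩, ⟨r, gr⟩, gn, gj, gi⟩ := hSGN k Ω X x y h (j + 1) hT hx j.succ_pos hj
    refine ⟨-(Θ + (act γ).comp Θ), fun i => if act γ (X.π (i + 1) h) = -X.π (i + 1) h ∧
      i ≠ X.n - 1 then 0 else -2 * m i, ?_, ?_, fun i hi => ?_, fun g hg => ?_,
        fun G hG S hS τ tx ty => ?_⟩
    · rw [AddMonoidHom.neg_apply, AddMonoidHom.add_apply, AddMonoidHom.comp_apply, a1, map_sum,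
        ← sum_add_distrib, ← sum_neg_distrib]
      refine sum_congr rfl fun i _ => ?_
      rw [map_zsmul]
      beta_reduce
      split_ifs with e
      · rw [e.1]
        simp
      · have : act γ (X.π (i + 1) h) = X.π (i + 1) h := by
          by_cases e' : i = X.n - 1
          · rwa [show i + 1 = X.n by omega]
          · exact (gi _).resolve_right fun e2 => e ⟨e2, e'⟩
        rw [this, mul_smul, neg_smul, two_smul]
    · simp only [ne_eq, not_true_eq_false, and_false, if_false, a2, pow_succ']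
    · beta_reduce
      split_ifs with e
      · rfl
      · rcases (Nat.lt_succ_iff.1 hi).eq_or_lt with rfl | hi'
        · exact absurd ⟨gj, by omega⟩ e
        · rw [a3 i hi', mul_zero]
    · exact neg_mem (add_mem (a4 g hg) ((act_c γ (a4 g hg)).symm ▸ a4 g hg))
    · have b1 := a5 G hG S hS τ tx ty
      have b2 := a5 G hG S hS (γ⁻¹ * τ * γ) (by
        simp only [AlgEquiv.mul_apply]
        rw [show τ (γ x) = γ x by rw [ga, map_add, tx, τ.commutes]]
        exact γ.symm_apply_apply x) (by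
        simp only [AlgEquiv.mul_apply]
        rw [show τ (γ y) = γ y by rw [gr, map_add, ty, ← aeval_algHom_apply, tx]]
        exact γ.symm_apply_apply y)
      have b3 := act_c γ (hG b2)
      rw [map_sub, ← act_mul, ← mul_assoc, ← mul_assoc, mul_inv_cancel, one_mul, act_mul] at b3
      have b4 := neg_mem (add_mem b1 (b3 ▸ b2))
      rw [AddMonoidHom.neg_apply, AddMonoidHom.add_apply, AddMonoidHom.comp_apply, map_neg, map_add]
      rwa [show ∀ p q r s : EP Ω, -(p - q + (r - s)) = -(p + r) - -(q + s) from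
        fun _ _ _ _ => by abel] at b4

theorem gen [IsAlgClosed k] [IsAlgClosed Ω] (hGEN : S_GEN) (hT : Td k Ω) {P Q : EP Ω}
    (hP : P ∉ (mp (algebraMap k Ω)).range) (hQ : Q ∉ (mp (algebraMap k Ω)).range) :
    ∃ τ : Ω ≃ₐ[k] Ω, act τ P = Q := by
  rcases EP.cases P with rfl | ⟨u, v, h, rfl⟩
  · exact absurd (zero_mem _) hP
  rcases EP.cases Q with rfl | ⟨u', v', h', rfl⟩
  · exact absurd (zero_mem _) hQ
  rw [mem_range'] at hP hQ
  obtain ⟨τ, a, b⟩ := hGEN k Ω (X ^ 3) u v u' v' hT (by rw [natDegree_X_pow]; decide)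
    (fun e => hP (rng e)) (fun e => hQ (rng e)) (by simpa using h) (by simpa using h')
  exact ⟨τ, (mp_ap _ h).trans (ap_inj.2 ⟨a, b⟩)⟩

theorem sq [IsAlgClosed k] (X : Xd k) {x y : Ω} (h : y ^ 2 + y = aeval x X.f) (i : ℕ)
    {τ : Ω ≃ₐ[k] Ω} (e : act τ (X.π i h) = X.π i h) : (τ * τ) x = x ∧ (τ * τ) y = y := by
  have e2 : act (τ * τ) (X.π i h) = X.π i h := by rw [act_mul, e, e]
  rw [Xd.π, mp_ap, ap_inj] at e e2
  have e1 := e.1
  have e3 := e2.2
  simp only [RingHom.coe_coe, map_add, AlgEquiv.commutes, ← aeval_algHom_apply,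
    add_left_inj] at e1 e3
  obtain ⟨a, ha⟩ := rng (k := k) (u := τ x + x) ⟨X.L, X.sep.ne_zero, by
    rw [X.add, e1, CharTwo.add_self_eq_zero]⟩
  have e4 : τ x = x + algebraMap k Ω a := by rw [ha]; grind
  have e5 : (τ * τ) x = x := by
    rw [AlgEquiv.mul_apply, e4, map_add, e4, τ.commutes]
    grind
  rw [e5] at e3
  exact ⟨e5, by simpa using e3⟩

end ONTOx

open ONTOx

theorem p_ONTO (hGEN : S_GEN) (hTOR : S_TOR) (hSGN : S_SGN) :
    S_ONTO := by
  intro k Ω _ _ _ _ _ _ _ X x y h hT hx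
  have hn := X.hn
  obtain ⟨Θ, m, a1, a2, a3, a4, a5⟩ := step hSGN X h hT hx (X.n - 1) (by omega)
  rw [sum_eq_single (X.n - 1) (fun i hi e => by
    rw [a3 i (by have := Finset.mem_range.1 hi; omega), zero_smul]) (fun e => absurd
      (Finset.mem_range.2 (by omega)) e), a2] at a1
  have nP := nc X h hx (X.n - 1 + 1) (X.n - 1)
  refine ⟨fun e => nP (a1 ▸ a4 _ e), fun ε S t hε hS ht => ?_⟩
  have c0 : ∀ τ : Ω ≃ₐ[k] Ω, τ x = x → τ y = y → act τ S - S ∈ (mp (algebraMap k Ω)).range :=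
    fun τ tx ty => hTOR k Ω (X.J * X.n) ε _ (Nat.mul_pos (by have := X.hJ; omega) hn) hε (by
      rw [smul_sub, ← map_zsmul]
      exact sub_eq_zero.2 (hS.symm ▸ X.mp_Pi (τ : Ω →ₐ[k] Ω) tx ty h h))
  have c1 : ∀ {τ : Ω ≃ₐ[k] Ω} {g}, τ x = x → τ y = y → act τ S = S + g →
      g ∈ (mp (algebraMap k Ω)).range := fun tx ty e => by
    simpa only [e, add_sub_cancel_left] using c0 _ tx ty
  let G : AddSubgroup (EP Ω) :=
    { carrier := {g | ∃ τ : Ω ≃ₐ[k] Ω, τ x = x ∧ τ y = y ∧ act τ S = S + g}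
      zero_mem' := ⟨1, rfl, rfl, by rw [act_one, add_zero]⟩
      add_mem' := fun ⟨σ, s1, s2, s3⟩ ⟨τ, t1, t2, t3⟩ => ⟨σ * τ, by
        rw [AlgEquiv.mul_apply, t1, s1], by rw [AlgEquiv.mul_apply, t2, s2], by
        rw [act_mul, t3, map_add, s3, act_c σ (c1 t1 t2 t3), add_assoc]⟩
      neg_mem' := fun ⟨τ, t1, t2, t3⟩ => ⟨τ⁻¹, τ.symm_apply_eq.2 t1.symm,
        τ.symm_apply_eq.2 t2.symm, by
        have := congrArg (act τ⁻¹) t3
        rw [← act_mul, inv_mul_cancel, act_one, map_add, act_c _ (c1 t1 t2 t3)] at this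
        exact eq_add_neg_of_add_eq this.symm⟩ }
  have b := a5 G (fun g ⟨_, t1, t2, t3⟩ => c1 t1 t2 t3) S fun τ tx ty =>
    ⟨τ, tx, ty, (add_sub_cancel _ _).symm⟩
  have eT : X.N ε • Θ S = (-2 : ℤ) ^ (X.n - 1) • X.π (X.n - 1 + 1) h := by
    rw [← map_zsmul, hS, a1]
  have et : X.N ε • mp (algebraMap k Ω) t = 0 := by rw [← map_zsmul, ht, map_zero]
  have hm : mp (algebraMap k Ω) t ∈ (mp (algebraMap k Ω)).range := ⟨t, rfl⟩
  have n1 : Θ S ∉ (mp (algebraMap k Ω)).range := fun e => nP (eT ▸ zsmul_mem e _)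
  obtain ⟨τ, eτ⟩ := gen hGEN hT n1 (Q := Θ S + mp (algebraMap k Ω) t) fun e =>
    n1 (by simpa using sub_mem e hm)
  obtain ⟨s1, s2⟩ := sq X h (X.n - 1 + 1) (τ := τ) (pow_inj (X.n - 1) (by
    rw [← map_zsmul, ← eT, map_zsmul, eτ, smul_add, et, add_zero]))
  have b2 := b _ s1 s2
  rw [act_mul, eτ, map_add, eτ, act_c τ hm, add_assoc, add_sub_cancel_left] at b2
  obtain ⟨r, hr⟩ := X.N_odd hε
  have b3 := G.zsmul_mem b2 (-r)
  rw [hr, add_smul, one_smul, add_eq_zero_iff_neg_eq] at et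
  rw [← two_zsmul, smul_smul, show -r * 2 = -(2 * r) by ring, neg_smul, et] at b3
  exact b3

end Pool.Agent.P.MP_16b5eb_nt.T1
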