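import Pool.Agent.P.MP_16b5eb_nt.T1.IfA

/-! Step ORB. -/

set_option autoImplicit false

namespace Pool.Agent.P.MP_16b5eb_nt.T1

open Polynomial EP Finset
open scoped IntermediateField Classical

namespace ORBx

variable {k : Type} [Field k] [Algebra (ZMod 2) k]

/-- The Frobenius as a linear map. -/
noncomputable def tau (k : Type) [Field k] [Algebra (ZMod 2) k] : Module.End (ZMod 2) k :=
  (FiniteField.frobeniusAlgHom (ZMod 2) k).toLinearMap

theorem tau_pow (i : ℕ) (a : k) : (tau k ^ i) a = a ^ 2 ^ i := by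
  induction i with
  | zero => simp
  | succ i ih =>
    rw [pow_succ', Module.End.mul_apply, ih]
    change (a ^ 2 ^ i) ^ Fintype.card (ZMod 2) = _
    rw [ZMod.card, ← pow_mul, pow_succ]

theorem xpow (j : ℕ) (a : k) : aeval (tau k) (X ^ j - 1 : (ZMod 2)[X]) a = a ^ 2 ^ j - a := by
  simp [tau_pow]

theorem dvd_of {l p : (ZMod 2)[X]} (hl : Irreducible l) {v : k} (h0 : v ≠ 0)
    (h1 : aeval (tau k) l v = 0) (h2 : aeval (tau k) p v = 0) : l ∣ p := by
  by_contra hnd
  obtain ⟨a, b, hab⟩ := hl.coprime_iff_not_dvd.mpr hnd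
  have := congrArg (fun p => aeval (tau k) p v) hab
  simp only [map_add, map_mul, LinearMap.add_apply, Module.End.mul_apply, h1, h2, map_zero,
    add_zero, map_one, Module.End.one_apply] at this
  exact h0 this.symm

theorem cop {h K : ℕ} (hh : h.Prime) (h2 : 2 < h) (hK : ∀ p : ℕ, p.Prime → p ∣ K → p ≤ 2 * h) :
    (2 ^ h - 1).Coprime K := by
  refine Nat.coprime_of_dvd fun p hp d1 d2 => ?_
  have : Fact p.Prime := ⟨hp⟩
  have : Fact h.Prime := ⟨hh⟩
  have e1 : (2 : ZMod p) ^ h = 1 := by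
    have := (ZMod.natCast_eq_zero_iff _ _).2 d1
    rw [Nat.cast_sub Nat.one_le_two_pow] at this
    push_cast at this
    exact sub_eq_zero.1 this
  have e0 : (2 : ZMod p) ≠ 0 := fun e => by
    rw [e, zero_pow hh.ne_zero] at e1
    exact zero_ne_one e1
  have e2 : (2 : ZMod p) ≠ 1 := fun e => one_ne_zero (α := ZMod p) (by linear_combination e)
  obtain ⟨t, ht⟩ := orderOf_eq_prime e1 e2 ▸ ZMod.orderOf_dvd_card_sub_one e0
  obtain ⟨a, ha⟩ := hp.odd_of_ne_two fun e => by subst e; exact e0 rfl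
  obtain ⟨b, hb⟩ := hh.odd_of_ne_two (by omega)
  have h3 := hK p hp d2
  have h4 := hp.two_le
  rcases t with _ | _ | t
  · omega
  · omega
  · have : h * (t + 1 + 1) = h * t + 2 * h := by ring
    omega

end ORBx

open ORBx in
theorem p_ORB :
    S_ORB := by
  intro k _ _ _ _ h K hh h2 hK hp
  obtain ⟨l, l1, l2, l3, l4, l5⟩ := exists_prim (ZMod 2) h hh.pos
  obtain ⟨c, c0, c1, -⟩ := exists_orbit k hh.pos l1 l2 l3 l4 l5 1 one_pos
  rw [ZMod.card] at l5
  rw [ZMod.card, pow_one] at c1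
  have ex : ∀ a : k, aeval (tau k) l a = ∑ i ∈ range (h + 1), l.coeff i • a ^ 2 ^ i := fun a => by
    rw [aeval_eq_sum_range, l2]
    simp only [LinearMap.sum_apply, LinearMap.smul_apply, tau_pow]
  have hl : aeval (tau k) l c = 0 := by
    rw [ex, ← c1]
    simp only [Algebra.smul_def]
  have k1 : ∀ p, aeval (tau k) (l * p) c = 0 := fun p => by
    rw [mul_comm, map_mul, Module.End.mul_apply, hl, map_zero]
  have k2 : ∀ p, aeval (tau k) l (aeval (tau k) p c) = 0 := fun p => by
    rw [← Module.End.mul_apply, ← map_mul, k1]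
  have d1 : l ∣ X ^ (2 ^ h - 1) - 1 := by
    have := (l4.natDegree_dvd_iff_dvd_X_pow_card_pow_sub_X (n := h)).1 l2.dvd
    rw [Nat.card_zmod, show (X ^ 2 ^ h - X : (ZMod 2)[X]) = X * (X ^ (2 ^ h - 1) - 1) by
      rw [mul_sub, mul_one, ← pow_succ', Nat.sub_add_cancel Nat.one_le_two_pow]] at this
    refine (l4.prime.dvd_or_dvd this).resolve_left fun e => ?_
    have := natDegree_le_of_dvd e X_ne_zero
    rw [natDegree_X] at this
    omega
  have lh : l.coeff h = 1 := l2 ▸ l1.coeff_natDegree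
  refine ⟨c, l.coeff, (range h).image fun i => c ^ 2 ^ i, l3, lh ▸ one_ne_zero, c1, ?_,
    fun j j0 j1 e => ?_, card_image_le.trans_eq (card_range h), fun i => ?_⟩
  · obtain ⟨t, ht⟩ := d1.trans (pow_one_sub_dvd_pow_mul_sub_one X (2 ^ h - 1) K)
    rw [← sub_eq_zero, ← xpow, mul_comm, ht, k1]
  · rw [← CharTwo.sub_eq_add, ← xpow] at e
    by_cases v0 : aeval (tau k) (X ^ (K * j) - 1 : (ZMod 2)[X]) c = 0
    · have := Nat.le_of_dvd j0
        ((cop hh h2 hp).dvd_of_dvd_mul_left (l5 _ (dvd_of l4 c0 hl v0)))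
      omega
    · have h3 := Nat.le_of_dvd two_pos (l5 2 (dvd_of l4 v0 (k2 _) (by
        rw [xpow 2]; exact sub_eq_zero.2 e)))
      have h4 : 2 ^ 3 ≤ 2 ^ h := Nat.pow_le_pow_right two_pos h2
      omega
  · induction i using Nat.strong_induction_on with
    | _ i ih =>
      rcases lt_or_ge i h with hi | hi
      · exact AddSubgroup.subset_closure (mem_coe.2 (mem_image_of_mem _ (mem_range.2 hi)))
      obtain ⟨m, rfl⟩ := Nat.exists_eq_add_of_le' hi
      have h3 := k2 (X ^ m)
      rw [map_pow, aeval_X, tau_pow, ex, sum_range_succ, lh, one_smul, ← pow_mul, ← pow_add,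
        add_eq_zero_iff_neg_eq] at h3
      rw [← h3]
      refine neg_mem (sum_mem fun t ht => ?_)
      have h4 := mem_range.1 ht
      rcases (by decide : ∀ a : ZMod 2, a = 0 ∨ a = 1) (l.coeff t) with e | e
      · rw [e, zero_smul]
        exact zero_mem _
      · rw [e, one_smul, ← pow_mul, ← pow_add]
        exact ih _ (by omega)

end Pool.Agent.P.MP_16b5eb_nt.T1
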