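import Pool.Agent.P.MP_16b5eb_nt.T1.IfA

/-! Step ORD. -/

set_option autoImplicit false

namespace Pool.Agent.P.MP_16b5eb_nt.T1

open Polynomial EP Finset
open scoped IntermediateField Classical

namespace ORDx

open WeierstrassCurve.Affine WeierstrassCurve.Affine.CoordinateRing
open scoped nonZeroDivisors

variable {k : Type} [Field k] {W : WeierstrassCurve.Affine k} {f b : k[X]}

theorem sq_root (hW : W.polynomial = X ^ 2 - C b * X - C f) :
    mk W X * mk W X = mk W (C f) + mk W (C b) * mk W X := by
  have h : mk W (X ^ 2 - C b * X - C f) = 0 := by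
    rw [← hW]
    exact AdjoinRoot.mk_self
  simp only [map_sub, map_mul, map_pow] at h
  linear_combination h

/-- The map from the quadratic algebra to the coordinate ring. -/
noncomputable def psi (hW : W.polynomial = X ^ 2 - C b * X - C f) :
    QuadraticAlgebra k[X] f b →+* W.CoordinateRing where
  toFun G := mk W (C G.re) + mk W (C G.im) * mk W X
  map_one' := by simp [QuadraticAlgebra.re_one, QuadraticAlgebra.im_one]
  map_mul' z w := by
    simp only [QuadraticAlgebra.re_mul, QuadraticAlgebra.im_mul, map_add, map_mul]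
    linear_combination (-(mk W (C z.im) * mk W (C w.im))) * sq_root hW
  map_zero' := by simp
  map_add' z w := by
    simp only [QuadraticAlgebra.re_add, QuadraticAlgebra.im_add, map_add]
    ring

theorem psi_apply (hW : W.polynomial = X ^ 2 - C b * X - C f) (G : QuadraticAlgebra k[X] f b) :
    psi hW G = mk W (C G.re) + mk W (C G.im) * mk W X := rfl

theorem map_id (hW : W.polynomial = X ^ 2 - C b * X - C f) (P : Pt f b) :
    P.id.map (psi hW) = XYIdeal W P.x (C P.y) := by
  apply le_antisymm
  · rw [Ideal.map_le_iff_le_comap]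
    intro G hG
    rw [Pt.mem_id, Pt.ev_apply] at hG
    obtain ⟨q, hq⟩ : X - C P.x ∣ G.re + G.im * C P.y := dvd_iff_isRoot.mpr (by simpa using hG)
    rw [Ideal.mem_comap, XYIdeal, Ideal.mem_span_pair]
    refine ⟨mk W (C q), mk W (C G.im), ?_⟩
    have h1 := congrArg (fun p : k[X] => mk W (C p)) hq
    simp only [map_add, map_mul] at h1
    rw [psi_apply, XClass, YClass, map_sub (mk W) X]
    linear_combination -h1
  · rw [XYIdeal, Ideal.span_le]
    rintro z (rfl | rfl)
    · have h1 := Ideal.mem_map_of_mem (psi hW) P.X_sub_mem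
      have h2 : psi hW (algebraMap k[X] (QuadraticAlgebra k[X] f b) (X - C P.x)) =
          XClass W P.x := by
        rw [psi_apply, QuadraticAlgebra.algebraMap_re, QuadraticAlgebra.algebraMap_im, XClass]
        simp
      rwa [h2] at h1
    · have h0 : (⟨-C P.y, 1⟩ : QuadraticAlgebra k[X] f b) ∈ P.id := by
        rw [Pt.mem_id, Pt.ev_apply]; simp
      have h1 := Ideal.mem_map_of_mem (psi hW) h0
      have h2 : psi hW (⟨-C P.y, 1⟩ : QuadraticAlgebra k[X] f b) = YClass W (C P.y) := by
        rw [psi_apply, YClass, map_sub (mk W) X]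
        simp only [map_neg, map_one]
        ring
      rwa [h2] at h1

theorem gen [DecidableEq k] (hW : W.polynomial = X ^ 2 - C b * X - C f) (P : Pt f b)
    (h : W.Nonsingular P.x P.y) (N : ℕ) (G : QuadraticAlgebra k[X] f b)
    (hG : Ideal.span {G} = P.id ^ N) : N • Point.some P.x P.y h = 0 := by
  have h1 : XYIdeal W P.x (C P.y) ^ N = Ideal.span {psi hW G} := by
    rw [← map_id hW P, ← Ideal.map_pow, ← hG, Ideal.map_span, Set.image_singleton]
  have h2 : psi hW G ≠ 0 := by
    intro h0
    have h3 : XClass W P.x ^ N ∈ XYIdeal W P.x (C P.y) ^ N :=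
      Ideal.pow_mem_pow (Ideal.subset_span (by simp)) N
    rw [h1, h0, Ideal.span_singleton_zero, Ideal.mem_bot] at h3
    exact pow_ne_zero N (XClass_ne_zero P.x) h3
  have h4 : ClassGroup.mk W.FunctionField (XYIdeal' (W := W) h ^ N) = 1 :=
    (ClassGroup.mk_eq_one_of_coe_ideal (I' := XYIdeal W P.x (C P.y) ^ N) (by
      rw [Units.val_pow_eq_pow_val, XYIdeal'_eq, FractionalIdeal.coeIdeal_pow])).mpr ⟨_, h2, h1⟩
  rw [map_pow] at h4
  rw [← Point.toClass_eq_zero, map_nsmul, Point.toClass_some]
  exact h4

end ORDx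

theorem p_ORD :
    S_ORD := by
  intro k _ _ e d h N₀ hN N G c hN0 hc h1 h2
  have : IsDedekindDomain (QuadraticAlgebra k[X] (X ^ 3) 1) :=
    isDedekind_qa (nonSing_two _) (noRoot_of_deg (g := 1) (by simp) (by simp))
  let P : Pt (X ^ 3 : k[X]) 1 :=
    { x := e
      y := d
      eqn := by simp only [eval_pow, eval_X, eval_one]; grind
      ne := by simp [CharTwo.two_eq_zero] }
  have h3 := span_eq_of_norm (Finset.range N) (fun _ => P) G c hc (by simpa using h1)
    fun _ _ => h2
  rw [Finset.prod_const, Finset.card_range] at h3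
  have hW : (W0.toAffine.baseChange k).polynomial = X ^ 2 - C 1 * X - C (X ^ 3) := by
    simp [WeierstrassCurve.Affine.polynomial, W0, CharTwo.sub_eq_add]
  let _ := Classical.decEq k
  exact hN N hN0 (ORDx.gen hW P (ns h) N G h3)

end Pool.Agent.P.MP_16b5eb_nt.T1
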