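import Pool.Agent.P.MP_16b5eb_nt.T1.IfA

/-! Step PROP. -/

set_option autoImplicit false

namespace Pool.Agent.P.MP_16b5eb_nt.T1

open Polynomial EP Finset
open scoped IntermediateField Classical

theorem p_PROP (hCARD : S_CARD) :
    S_PROP := by
  intro K _ _ _ j ε l hj hε pl hl
  have := Fact.mk pl
  set N := ε - (-2) ^ j with hN
  have ev : Even ((-2 : ℤ) ^ j) := (even_two.neg).pow_of_ne_zero (by omega)
  have od : Odd N := by
    rcases hε with rfl | rfl
    · exact odd_one.sub_even ev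
    · exact odd_neg_one.sub_even ev
  have N0 : N ≠ 0 := fun e => by simp [e] at od
  have lo : Odd l := (Int.natAbs_odd.2 od).of_dvd_nat (Int.natCast_dvd.1 hl)
  have cd : Nat.card (tor K N) = N.natAbs ^ 2 := hCARD K j ε hj hε
  have fin : Finite (tor K N) := Nat.finite_of_card_ne_zero (by rw [cd]; positivity)
  obtain ⟨M, hM⟩ := hl
  have l0 : (l : ℤ) ≠ 0 := by exact_mod_cast pl.ne_zero
  rw [show N / l = M by rw [hM, Int.mul_ediv_cancel_left _ l0]]
  have le : tor K M ≤ tor K N := fun P h => by rw [mem_tor, hM, mul_smul, mem_tor.1 h, smul_zero]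
  obtain ⟨i, hi⟩ := AddSubgroup.card_dvd_of_le le
  have io : Odd i := (Odd.of_dvd_nat (cd ▸ (Int.natAbs_odd.2 od).pow) (Dvd.intro_left _ hi.symm))
  have i1 : i ≠ 1 := fun e => by
    rw [e, mul_one] at hi
    have eq : tor K M = tor K N := AddSubgroup.eq_of_le_of_card_ge le hi.le
    obtain ⟨v, u, hu, hv⟩ := Nat.exists_eq_pow_mul_and_not_dvd (Int.natAbs_ne_zero.2 N0) l pl.ne_one
    have k1 : ∀ (n : ℕ) (P : EP K), (l : ℤ) ^ n • N • P = 0 → N • P = 0 := fun n => by
      induction n with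
      | zero => simp
      | succ n ih =>
        intro P h
        have : (l : ℤ) • P ∈ tor K M := eq ▸ ih ((l : ℤ) • P) (by
          rwa [smul_comm N, smul_smul, ← pow_succ])
        rwa [mem_tor, smul_smul, mul_comm, ← hM] at this
    have e1 : ε ^ l = ε := by
      rcases hε with rfl | rfl
      · simp
      · exact lo.neg_one_pow
    have d1 : (l : ℤ) * N ∣ ε - (-2) ^ (j * l) := by
      have a := Commute.geom_sum₂_mul (Commute.all ε ((-2 : ℤ) ^ j)) l
      rw [e1, ← pow_mul] at a
      rw [← a]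
      exact mul_dvd_mul_right (by
        simpa using dvd_geom_sum₂_self (x := ε) (y := (-2 : ℤ) ^ j) (n := l) ⟨M, hM⟩) _
    have c2 := hCARD K (j * l) ε (hj.trans (Nat.le_mul_of_pos_right _ pl.pos)) hε
    have d2 : l ^ (2 * v + 1) ∣ Nat.card (tor K (ε - (-2) ^ (j * l))) := by
      have a := pow_dvd_pow_of_dvd (Int.natAbs_dvd_natAbs.2 d1) 2
      rw [Int.natAbs_mul, Int.natAbs_natCast, hv] at a
      rw [c2]
      exact Dvd.dvd.trans ⟨l * u ^ 2, by ring⟩ a
    have n2 : ε - (-2) ^ (j * l) ≠ 0 := fun e => by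
      have : Even ((-2 : ℤ) ^ (j * l)) :=
        (even_two.neg).pow_of_ne_zero (Nat.mul_pos (by omega) pl.pos).ne'
      rw [← sub_eq_zero.1 e] at this
      rcases hε with rfl | rfl <;> exact absurd this (by decide)
    have : Finite (tor K (ε - (-2) ^ (j * l))) :=
      Nat.finite_of_card_ne_zero (by rw [c2]; positivity)
    obtain ⟨H, hH⟩ := Sylow.exists_subgroup_card_pow_prime
      (G := Multiplicative (tor K (ε - (-2) ^ (j * l)))) l d2
    let H' := H.toAddSubgroup'.map (tor K (ε - (-2) ^ (j * l))).subtype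
    have c3 : Nat.card H' = l ^ (2 * v + 1) :=
      (AddSubgroup.card_map_of_injective (AddSubgroup.subtype_injective _)).trans hH
    have d3 := AddSubgroup.card_dvd_of_le (show H' ≤ tor K N from fun P h => k1 (2 * v + 1) P (by
      have a : Nat.card H' • P = 0 := congrArg Subtype.val (card_nsmul_eq_zero' (x := (⟨P, h⟩ : H')))
      rw [smul_comm, ← Nat.cast_pow, natCast_zsmul, ← c3, a, smul_zero]))
    rw [c3, cd, hv, mul_pow, ← pow_mul, mul_comm v, pow_succ] at d3
    exact hu (pl.dvd_of_dvd_pow (Nat.dvd_of_mul_dvd_mul_left (by have := pl.pos; positivity) d3))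
  obtain ⟨r, rfl⟩ := io
  rw [hi, mul_comm]
  exact Nat.mul_le_mul_left _ (by omega)

end Pool.Agent.P.MP_16b5eb_nt.T1
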