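import Pool.Agent.P.MP_16b5eb_nt.T1.IfA

/-! Step RDP. -/

set_option autoImplicit false

namespace Pool.Agent.P.MP_16b5eb_nt.T1

open Polynomial EP Finset
open scoped IntermediateField Classical

namespace RDPx

theorem red_term {F : Type} [Field F] [CharP F 2] (a b : F) (s t : ℕ)
    (h : b ^ 2 ^ min s t = a) :
    C a * X ^ (2 ^ s + 2 ^ t) - C b * X ^ (2 ^ (s + t - 2 * min s t) + 1) ∈ asGrp (k := F) 2 1 := by
  have := pow_sub_mem 2 1 (C b * X ^ (2 ^ (s + t - 2 * min s t) + 1) : F[X]) (min s t)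
  rw [pow_one, mul_pow, ← C_pow, h, ← pow_mul, add_mul, ← pow_add, one_mul] at this
  convert this using 4
  rcases le_total s t with h1 | h1
  · rw [min_eq_left h1, add_comm, show s + t - 2 * s + s = t by omega]
  · rw [min_eq_right h1, show s + t - 2 * t + t = s by omega]

theorem cube {F : Type} [Field F] [CharP F 2] (m : ℕ) (μ : ℕ → F) :
    adp m μ ^ 3 = ∑ z ∈ range (m + 1) ×ˢ range (m + 1),
      C (μ z.1 ^ 2 * μ z.2) * X ^ (2 ^ (m - z.1 + 1) + 2 ^ (m - z.2)) := by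
  have h2 : adp m μ ^ 2 = ∑ i ∈ range (m + 1), C (μ i ^ 2) * X ^ 2 ^ (m - i + 1) := by
    rw [adp, sum_pow_char]
    refine sum_congr rfl fun i _ => ?_
    rw [mul_pow, ← C_pow, ← pow_mul, ← pow_succ]
  rw [pow_succ, h2, adp, sum_mul_sum, ← sum_product']
  refine sum_congr rfl fun z _ => ?_
  rw [C_mul, pow_add X]
  ring

end RDPx

open RDPx in
theorem p_RDP :
    S_RDP := by
  intro F _ _ _ m μ h0 hm
  have hs : ∀ (u : ℕ) (a : F), ∃ b : F, b ^ 2 ^ u = a := fun u a =>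
    Finite.injective_iff_surjective.1 (iterateFrobenius F 2 u).injective a
  choose rt hrt using hs
  let I := range (m + 1) ×ˢ range (m + 1)
  let b : ℕ × ℕ → F := fun z => rt (min (m - z.1 + 1) (m - z.2)) (μ z.1 ^ 2 * μ z.2)
  let D : ℕ × ℕ → ℕ := fun z =>
    2 ^ (m - z.1 + 1 + (m - z.2) - 2 * min (m - z.1 + 1) (m - z.2)) + 1
  let f : F[X] := ∑ z ∈ I, C (b z) * X ^ D z
  have hb : b (0, m) ≠ 0 := by
    intro h
    have := hrt (min (m - 0 + 1) (m - m)) (μ 0 ^ 2 * μ m)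
    have h' : rt (min (m - 0 + 1) (m - m)) (μ 0 ^ 2 * μ m) = 0 := h
    rw [h', zero_pow (by positivity)] at this
    exact mul_ne_zero (pow_ne_zero 2 h0) hm this.symm
  have hf : f.natDegree = 2 ^ (m + 1) + 1 := by
    rw [natDegree_sum_top I b D (0, m) (by simp [I]) hb fun z hz h => ?_]
    · simp [D]
    · obtain ⟨i, j⟩ := z
      simp only [I, mem_product, mem_range, Ne, Prod.mk.injEq] at hz h
      exact Nat.succ_lt_succ (Nat.pow_lt_pow_right one_lt_two (by simp only; omega))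
  have hf0 : f.eval 0 = 0 := by
    simp only [f, eval_finsetSum]
    exact sum_eq_zero fun i _ => by simp [D]
  have m1 : adp m μ ^ 3 - f ∈ asGrp (k := F) 2 1 := by
    rw [cube, ← sum_sub_distrib]
    exact sum_mem fun z _ => red_term _ _ _ _ (hrt _ _)
  obtain ⟨w0, hw0⟩ := (mem_asGrp 2 1 _).1 m1
  refine ⟨f, hf, hf0, fun k _ _ _ _ e he => ?_⟩
  have h2 : (2 : k[X]) = 0 := CharP.cast_eq_zero k[X] 2
  have h2' : (2 : k) = 0 := CharP.cast_eq_zero k 2
  obtain ⟨r, hr⟩ := IsAlgClosed.exists_pow_nat_eq e two_pos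
  set M := (adp m μ).map (algebraMap F k) with hM
  have e1 := congrArg (Polynomial.map (algebraMap F k)) hw0
  simp only [Polynomial.map_sub, Polynomial.map_pow, pow_one] at e1
  rw [← hM] at e1
  have hβ : (e ^ 2 + r) ^ 2 = e ^ 4 + e := by linear_combination hr + (e ^ 2 * r) * h2'
  have m2 : C (e ^ 2 + r) * M ∈ asGrp (k := k) 2 1 := by
    have hM' : M = ∑ i ∈ range (m + 1), C (algebraMap F k (μ i)) * X ^ 2 ^ (m - i) := by
      simp only [hM, adp, Polynomial.map_sum, Polynomial.map_mul, Polynomial.map_pow, map_C, map_X]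
    rw [hM', mul_sum]
    refine sum_mem_of_pow 2 1 _ _ (fun i => i) ?_
    have e2 : ∀ i ∈ range (m + 1),
        (C (e ^ 2 + r) * (C (algebraMap F k (μ i)) * X ^ 2 ^ (m - i))) ^ (2 ^ 1) ^ i =
        C (((e ^ 2 + r) * algebraMap F k (μ i)) ^ 2 ^ i) * X ^ 2 ^ m := by
      intro i hi
      have := mem_range.1 hi
      rw [pow_one, ← mul_assoc, ← C_mul, mul_pow, ← C_pow, ← pow_mul, ← pow_add,
        show m - i + i = m by omega]
    rw [sum_congr rfl e2, ← sum_mul, ← map_sum]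
    have e3 : (∑ i ∈ range (m + 1), ((e ^ 2 + r) * algebraMap F k (μ i)) ^ 2 ^ i) ^ 2 = 0 := by
      rw [sum_pow_char, ← he]
      refine sum_congr rfl fun i _ => ?_
      rw [← hβ, mul_pow, mul_pow, ← pow_mul, ← pow_mul, ← pow_mul, ← pow_succ, ← pow_succ',
        mul_comm]
    rw [pow_eq_zero_iff two_ne_zero |>.1 e3, C_0, zero_mul]
  obtain ⟨w2, hw2⟩ := (mem_asGrp 2 1 _).1 m2
  obtain ⟨w3, hw3⟩ := (mem_asGrp 2 1 _).1 (C_mem_asGrp 2 1 one_pos (e ^ 3))
  rw [pow_one] at hw2 hw3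
  have hr' : (C r : k[X]) ^ 2 = C e := by rw [← C_pow, hr]
  rw [C_add, C_pow] at hw2
  rw [C_pow] at hw3
  refine ⟨w0.map (algebraMap F k) + w2 + w3 + C r * M, ?_⟩
  generalize w0.map (algebraMap F k) = w1 at *
  generalize f.map (algebraMap F k) = g at *
  generalize (C r : k[X]) = R at *
  generalize (C e : k[X]) = E at *
  clear_value M
  grind

end Pool.Agent.P.MP_16b5eb_nt.T1
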