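import Pool.Agent.P.MP_16b5eb_nt.T1.IfA

/-! Step SGN. -/

set_option autoImplicit false

namespace Pool.Agent.P.MP_16b5eb_nt.T1

open Polynomial EP Finset
open scoped IntermediateField Classical

namespace SGNx

theorem key {k : Type} [Field k] [CharP k 2] [IsAlgClosed k] (L p : k[X]) (e κ : k)
    (hL : 0 < L.natDegree) (sep : L.Separable) (he : e ^ 4 ≠ e)
    (hp : p ^ 2 + p = C e * L ^ 2 + C e ^ 2 * L + C κ) :
    ∃ a : k, L.eval a = 0 ∧ p.comp (X + C a) ≠ p := by
  by_contra hcon
  push Not at hcon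
  have hL0 : L ≠ 0 := fun h => by simp [h] at hL
  have hev : ∀ a, L.eval a = 0 → (p - C (p.eval 0)).eval a = 0 := fun a ha => by
    have := congrArg (Polynomial.eval 0) (hcon a ha)
    simp only [eval_comp, eval_add, eval_X, eval_C, zero_add] at this
    simp [this]
  have hdvd : L ∣ p - C (p.eval 0) := by
    by_cases h0 : p - C (p.eval 0) = 0
    · rw [h0]; exact dvd_zero _
    · refine (IsAlgClosed.splits L).dvd_of_roots_le_roots hL0 ?_
      rw [Multiset.le_iff_subset (nodup_roots sep)]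
      intro a ha
      rw [mem_roots hL0] at ha
      rw [mem_roots h0]
      exact hev a ha
  obtain ⟨s, hs⟩ := hdvd
  set q := p.eval 0 with hq
  have hp' : p = L * s + C q := by rw [← hs]; ring
  have h1 : L * (L * (s ^ 2 + C e) + s + C e ^ 2) = C (κ + q ^ 2 + q) := by
    rw [hp'] at hp
    simp only [map_add, map_pow]
    grind
  have h2 : L * (s ^ 2 + C e) + s + C e ^ 2 = 0 := by
    by_contra hne
    have := congrArg natDegree h1
    rw [natDegree_mul hL0 hne, natDegree_C] at this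
    omega
  have h3 : L * (s ^ 2 + C e) = s + C (e ^ 2) := by
    simp only [map_pow]
    grind
  have h4 : s ^ 2 + C e = 0 := by
    by_contra hne
    have := congrArg natDegree h3
    rw [natDegree_mul hL0 hne, natDegree_add_C, natDegree_add_C, natDegree_pow] at this
    omega
  have h5 : C (e ^ 4) = (C e : k[X]) := by
    rw [h4, mul_zero] at h3
    simp only [map_pow] at h3 ⊢
    grind
  exact he (C_injective h5)

theorem pm {K : Type} [Field K] [CharP K 2] {x y x' y' : K} (h : y ^ 2 + y = x ^ 3)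
    (h' : y' ^ 2 + y' = x' ^ 3) (e : x = x') :
    ap x y h = ap x' y' h' ∨ ap x y h = -ap x' y' h' := by
  subst e
  exact eq_or_neg h h'

end SGNx

theorem p_SGN (hGEN : S_GEN) :
    S_SGN := by
  intro k Ω _ _ _ _ _ _ _ D x y h j hTd hx hj0 hjn
  have hp : (D.wj D.n + D.wj j) ^ 2 + (D.wj D.n + D.wj j) =
      C (D.cj j + D.c) * D.L ^ 2 + C (D.cj j + D.c) ^ 2 * D.L + C (D.cj j ^ 3 + D.c ^ 3) := by
    have a := D.hwj D.n
    have b := D.hwj j
    rw [D.cj_n] at a
    simp only [map_add, map_pow]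
    grind
  obtain ⟨a, ha, hne⟩ := SGNx.key D.L _ _ _ (by rw [D.hL]; positivity) D.sep (D.hc' j hj0 hjn) hp
  have hLa : aeval (x + algebraMap k Ω a) D.L = aeval x D.L := by
    rw [D.add, aeval_algebraMap_apply, coe_aeval_eq_eval, ha, map_zero, add_zero]
  have hx' : Transcendental k (x + algebraMap k Ω a) := fun hh => hx (by
    have := hh.sub (isAlgebraic_algebraMap (A := Ω) a)
    simpa using this)
  have hcomp : ∀ q : k[X], aeval x (q.comp (X + C a)) = aeval (x + algebraMap k Ω a) q := fun q => by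
    rw [aeval_comp]; simp
  have h' : (y + aeval x (D.wj D.n) + aeval (x + algebraMap k Ω a) (D.wj D.n)) ^ 2 +
      (y + aeval x (D.wj D.n) + aeval (x + algebraMap k Ω a) (D.wj D.n)) =
      aeval (x + algebraMap k Ω a) D.f := by
    have u := congrArg (aeval x) (D.hwj D.n)
    have v := congrArg (aeval (x + algebraMap k Ω a)) (D.hwj D.n)
    simp only [map_add, map_pow, aeval_C, hLa] at u v
    grind
  have hodd : Odd D.f.natDegree := by
    rw [D.hf]
    exact Even.add_one (even_two.pow_of_ne_zero (Nat.succ_ne_zero _))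
  obtain ⟨γ, gx, gy⟩ := hGEN k Ω D.f x y _ _ hTd hodd hx hx' h h'
  have hmp : ∀ i, mp (γ : Ω →+* Ω) (D.π i h) = D.π i h' := fun i =>
    D.mp_π (γ : Ω →ₐ[k] Ω) gx gy i h h'
  have hpm : ∀ i, D.π i h' = D.π i h ∨ D.π i h' = -D.π i h := fun i =>
    SGNx.pm _ _ (by rw [hLa])
  refine ⟨γ, ⟨a, gx⟩, ⟨D.wj D.n + (D.wj D.n).comp (X + C a), ?_⟩, ?_, ?_, fun i => ?_⟩
  · rw [gy, map_add, hcomp, add_assoc]
  · rw [hmp, Xd.π, Xd.π, ap_inj]
    exact ⟨by rw [hLa], by grind⟩
  · rw [hmp]
    refine (hpm j).resolve_left fun e => hne ?_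
    rw [Xd.π, Xd.π, ap_inj] at e
    have e2 := e.2
    refine transcendental_iff_injective.1 hx ?_
    simp only [hcomp, map_add]
    grind
  · rw [hmp]
    exact hpm i

end Pool.Agent.P.MP_16b5eb_nt.T1
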