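import Pool.Agent.P.MP_16b5eb_nt.T1.IfA

/-! Step TOR. -/

set_option autoImplicit false

namespace Pool.Agent.P.MP_16b5eb_nt.T1

open Polynomial EP Finset
open scoped IntermediateField Classical

theorem p_TOR :
    S_TOR := by
  intro k Ω _ _ _ _ _ _ j ε T hj hε h
  rcases cases T with rfl | ⟨a, b, hab, rfl⟩
  · exact zero_mem _
  obtain ⟨h', e⟩ := pow_ap j hab
  rw [sub_smul, sub_eq_zero, e] at h
  have ha : a ^ 2 ^ (2 * j) = a := by
    rcases hε with rfl | rfl
    · rw [one_smul] at h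
      exact (ap_inj.1 h).1.symm
    · rw [neg_smul, one_smul, neg_ap] at h
      exact (ap_inj.1 h).1.symm
  have h1 : 1 < 2 ^ (2 * j) := Nat.one_lt_two_pow (by omega)
  have hi : IsIntegral k a := by
    refine IsAlgebraic.isIntegral ⟨X ^ 2 ^ (2 * j) - X, FiniteField.X_pow_card_sub_X_ne_zero k h1, ?_⟩
    simp [ha]
  rw [mem_range']
  exact minpoly.mem_range_of_degree_eq_one k a
    (IsAlgClosed.degree_eq_one_of_irreducible k (minpoly.irreducible hi))

end Pool.Agent.P.MP_16b5eb_nt.T1
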