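import Pool.Agent.P.MP_16b5eb_nt.T1.EC
import Pool.Agent.P.MP_16b5eb_nt.Main

/-! The curve y ^ 2 + y = f(x) and its maps to the elliptic curve. -/

set_option autoImplicit false
set_option linter.unusedSectionVars false

namespace Pool.Agent.P.MP_16b5eb_nt.T1

open Polynomial EP Finset
open scoped IntermediateField

section adp

variable {F : Type} [Field F] [CharP F 2] (m : ℕ) (μ : ℕ → F)

/-- An additive polynomial. -/
noncomputable def adp : F[X] := ∑ i ∈ range (m + 1), C (μ i) * X ^ 2 ^ (m - i)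

theorem adp_deg (h : μ 0 ≠ 0) : (adp m μ).natDegree = 2 ^ m :=
  natDegree_sum_top _ _ (fun i => 2 ^ (m - i)) 0 (by simp) h fun i hi h =>
    Nat.pow_lt_pow_right one_lt_two (by have := mem_range.1 hi; omega)

theorem adp_add (R : Type) [CommRing R] [Algebra F R] (a b : R) :
    aeval (a + b) (adp m μ) = aeval a (adp m μ) + aeval b (adp m μ) := by
  nontriviality R
  have : CharP R 2 := charP_of_injective_algebraMap (algebraMap F R).injective 2
  simp only [adp, map_sum, map_mul, map_pow, aeval_X, aeval_C, add_pow_char_pow, mul_add, sum_add_distrib]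

theorem adp_zero : (adp m μ).eval 0 = 0 := by
  simpa using adp_add m μ F 0 0

theorem adp_der : derivative (adp m μ) = C (μ m) := by
  rw [adp, derivative_sum, sum_range_succ, sum_eq_zero fun i hi => ?_]
  · simp
  · obtain ⟨t, ht⟩ : ∃ t, m - i = t + 1 := ⟨m - i - 1, by have := mem_range.1 hi; omega⟩
    simp [ht, derivative_X_pow, pow_succ, CharTwo.two_eq_zero]

end adp

/-- The field `Ω` has transcendence degree at most one. -/
def Td (k Ω : Type) [Field k] [Field Ω] [Algebra k Ω] : Prop :=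
  ∀ x : Ω, Transcendental k x → Algebra.IsAlgebraic k⟮x⟯ Ω

/-- The data of the curve `y ^ 2 + y = f(x)` over the field with `4 ^ J` elements. -/
structure Xd (k : Type) [Field k] [CharP k 2] where
  J : ℕ
  n : ℕ
  m : ℕ
  f : k[X]
  L : k[X]
  w : k[X]
  c : k
  δ : k
  hJ : 2 ≤ J
  hn : 1 ≤ n
  hf : f.natDegree = 2 ^ (m + 1) + 1
  hL : L.natDegree = 2 ^ m
  sep : L.Separable
  add : ∀ (R : Type) [CommRing R] [Algebra k R] (a b : R), aeval (a + b) L = aeval a L + aeval b L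
  fσ : f.map (iterateFrobenius k 2 (2 * J)) = f
  Lσ : L.map (iterateFrobenius k 2 (2 * J)) = L
  hw : w ^ 2 + w = (L + C c) ^ 3 + f
  hc : c ^ 2 ^ (2 * J * n) = c
  hc' : ∀ j, 0 < j → j < n → (c ^ 2 ^ (2 * J * j) + c) ^ 4 ≠ c ^ 2 ^ (2 * J * j) + c
  hδ : δ = 0 ∨ δ = 1

namespace Xd

variable {k K K' : Type} [Field k] [CharP k 2] [Field K] [CharP K 2] [Algebra k K] [Field K']
  [CharP K' 2] [Algebra k K'] (X : Xd k)

/-- The conjugates of `c`. -/
def cj (j : ℕ) : k := X.c ^ 2 ^ (2 * X.J * j)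

/-- The conjugates of `w`. -/
noncomputable def wj (j : ℕ) : k[X] := X.w.map (iterateFrobenius k 2 (2 * X.J * j))

theorem fr_succ (j : ℕ) : iterateFrobenius k 2 (2 * X.J * (j + 1)) =
    (iterateFrobenius k 2 (2 * X.J)).comp (iterateFrobenius k 2 (2 * X.J * j)) := by
  rw [← iterateFrobenius_add, mul_add, mul_one, add_comm]

theorem cj_succ (j : ℕ) : X.cj (j + 1) = X.cj j ^ 2 ^ (2 * X.J) := by
  rw [cj, cj, ← pow_mul, ← pow_add, mul_add, mul_one]

theorem wj_succ (j : ℕ) : X.wj (j + 1) = (X.wj j).map (iterateFrobenius k 2 (2 * X.J)) := by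
  rw [wj, wj, Polynomial.map_map, fr_succ]

theorem cj_zero : X.cj 0 = X.c := by simp [cj]

theorem cj_n : X.cj X.n = X.c := X.hc

theorem hwj (j : ℕ) : X.wj j ^ 2 + X.wj j = (X.L + C (X.cj j)) ^ 3 + X.f := by
  induction j with
  | zero => simpa [wj, cj] using X.hw
  | succ j ih =>
    have := congrArg (Polynomial.map (iterateFrobenius k 2 (2 * X.J))) ih
    simp only [Polynomial.map_add, Polynomial.map_pow, map_C, X.fσ, X.Lσ] at this
    rwa [wj_succ, cj_succ]

theorem dj (j : ℕ) : (j * X.δ) ^ 2 = j * X.δ := by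
  have : (j : k) ^ 2 = j := map_natCast (frobenius k 2) j
  rcases X.hδ with h | h <;> simp [h, this]

variable {x y : K}

theorem eqπ (j : ℕ) (h : y ^ 2 + y = aeval x X.f) :
    (y + algebraMap k K (j * X.δ) + aeval x (X.wj j)) ^ 2 +
      (y + algebraMap k K (j * X.δ) + aeval x (X.wj j)) =
      (aeval x X.L + algebraMap k K (X.cj j)) ^ 3 := by
  have a := congrArg (aeval x) (X.hwj j)
  have b := congrArg (algebraMap k K) (X.dj j)
  simp only [map_add, map_pow, aeval_C] at a b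
  grind

/-- The points of the elliptic curve over the function field. -/
noncomputable def π (j : ℕ) (h : y ^ 2 + y = aeval x X.f) : EP K :=
  ap (aeval x X.L + algebraMap k K (X.cj j)) (y + algebraMap k K (j * X.δ) + aeval x (X.wj j))
    (X.eqπ j h)

/-- Their weighted sum. -/
noncomputable def Pi (h : y ^ 2 + y = aeval x X.f) : EP K :=
  ∑ j ∈ range X.n, (-2 : ℤ) ^ (X.J * (X.n - 1 - j)) • X.π (j + 1) h

/-- The multiplier. -/
def N (ε : ℤ) : ℤ := ε - (-2) ^ (X.J * X.n)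

theorem eq_one (h : y ^ 2 + y = aeval x X.f) : (y + 1) ^ 2 + (y + 1) = aeval x X.f := by grind

theorem π_neg (j : ℕ) (h : y ^ 2 + y = aeval x X.f) : X.π j (X.eq_one h) = -X.π j h := by
  rw [π, π, neg_ap, ap_inj]
  exact ⟨rfl, by ring⟩

theorem Pi_neg (h : y ^ 2 + y = aeval x X.f) : X.Pi (X.eq_one h) = -X.Pi h := by
  simp only [Pi, X.π_neg _ h, smul_neg, sum_neg_distrib]

theorem mp_π (φ : K →ₐ[k] K') {x' y' : K'} (hx : φ x = x') (hy : φ y = y') (j : ℕ)
    (h : y ^ 2 + y = aeval x X.f) (h' : y' ^ 2 + y' = aeval x' X.f) :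
    mp (φ : K →+* K') (X.π j h) = X.π j h' := by
  subst hx hy
  rw [π, π, mp_ap, ap_inj]
  simp [aeval_algHom_apply, -map_mul]

theorem mp_Pi (φ : K →ₐ[k] K') {x' y' : K'} (hx : φ x = x') (hy : φ y = y')
    (h : y ^ 2 + y = aeval x X.f) (h' : y' ^ 2 + y' = aeval x' X.f) :
    mp (φ : K →+* K') (X.Pi h) = X.Pi h' := by
  simp only [Pi, map_sum, map_zsmul, X.mp_π φ hx hy _ h h']

theorem π_n (h : y ^ 2 + y = aeval x X.f) : X.π X.n h = X.π 0 h ∨ X.π X.n h = -X.π 0 h := by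
  have e : X.cj X.n = X.cj 0 := X.cj_n.trans X.cj_zero.symm
  simp only [π, e]
  exact eq_or_neg _ _

/-- `σ` is a Frobenius map of the curve. -/
structure Fro (σ : K →+* K) (x y : K) : Prop where
  c : ∀ a, σ (algebraMap k K a) = algebraMap k K (a ^ 2 ^ (2 * X.J))
  x : σ x = x
  y : σ y = y + algebraMap k K X.δ

variable {X} {σ : K →+* K}

theorem Fro.ae (s : X.Fro σ x y) (p : k[X]) :
    σ (aeval x p) = aeval x (p.map (iterateFrobenius k 2 (2 * X.J))) := by
  rw [aeval_def, hom_eval₂, s.x, aeval_def, eval₂_map]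
  exact congrArg (eval₂ · x p) (RingHom.ext s.c)

theorem Fro.π (s : X.Fro σ x y) (j : ℕ) (h : y ^ 2 + y = aeval x X.f) :
    mp σ (X.π j h) = X.π (j + 1) h := by
  have e : (j * X.δ) ^ 2 ^ (2 * X.J) = j * X.δ :=
    (iterate_frobenius 2 _ _).symm.trans (Function.iterate_fixed (f := frobenius k 2) (X.dj j) _)
  rw [Xd.π, Xd.π, mp_ap, ap_inj, map_add, map_add, map_add, s.ae, s.ae, s.c, s.c, s.y, X.Lσ,
    cj_succ, wj_succ, e]
  exact ⟨rfl, by push_cast; simp only [add_mul, one_mul]; ring⟩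

theorem Fro.const (s : X.Fro σ x y) (T : EP k) :
    mp σ (mp (algebraMap k K) T) = (-2 : ℤ) ^ X.J • mp (algebraMap k K) T := by
  rw [← map_zsmul, ← fr_even, mp_mp, mp_mp]
  exact congrArg (mp · T) (RingHom.ext s.c)

theorem Fro.Pi (s : X.Fro σ x y) (h : y ^ 2 + y = aeval x X.f) {ε : ℤ}
    (e : X.π X.n h = ε • X.π 0 h) :
    mp σ (X.Pi h) = (-2 : ℤ) ^ X.J • X.Pi h + X.N ε • X.π 1 h := by
  have e1 := congrArg (mp σ) e
  rw [map_zsmul, s.π, s.π] at e1
  obtain ⟨n, hn⟩ : ∃ n, X.n = n + 1 := ⟨X.n - 1, by have := X.hn; omega⟩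
  simp only [Xd.Pi, N, map_sum, map_zsmul, s.π, smul_sum, smul_smul, ← pow_add]
  rw [hn] at e1 ⊢
  rw [sum_range_succ, sum_range_succ', e1, sub_smul]
  simp only [Nat.add_sub_cancel, Nat.sub_self, Nat.sub_zero, mul_zero, pow_zero, one_smul, zero_add]
  rw [sum_congr rfl fun j hj => show (-2 : ℤ) ^ (X.J * (n - j)) • X.π (j + 1 + 1) h =
    (-2 : ℤ) ^ (X.J + X.J * (n - (j + 1))) • X.π (j + 1 + 1) h by
      rw [show n - j = n - (j + 1) + 1 by have := mem_range.1 hj; omega, mul_add, mul_one, add_comm],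
    mul_add, mul_one, add_comm (X.J * n)]
  abel

theorem mp_const (φ : K →ₐ[k] K') (T : EP k) :
    mp (φ : K →+* K') (mp (algebraMap k K) T) = mp (algebraMap k K') T := by
  rw [mp_mp, φ.comp_algebraMap]

theorem N_odd {ε : ℤ} (h : ε = 1 ∨ ε = -1) : Odd (X.N ε) := by
  have : Even ((-2 : ℤ) ^ (X.J * X.n)) :=
    (even_two.neg).pow_of_ne_zero (Nat.mul_pos (by have := X.hJ; omega) X.hn).ne'
  rcases h with rfl | rfl
  · exact odd_one.sub_even this
  · exact odd_neg_one.sub_even this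

end Xd

end Pool.Agent.P.MP_16b5eb_nt.T1
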