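import Mathlib

/-! The elliptic curve y ^ 2 + y = x ^ 3 in characteristic two. -/

set_option autoImplicit false
set_option linter.unusedSectionVars false
set_option linter.style.haveILetI false

namespace Pool.Agent.P.MP_16b5eb_nt.T1

open WeierstrassCurve WeierstrassCurve.Affine

/-- The curve y ^ 2 + y = x ^ 3. -/
def W0 : WeierstrassCurve ℤ := ⟨0, 0, 1, 0, 0⟩

/-- Its points over a field. -/
def EP (K : Type) [Field K] : Type := (W0.toAffine.baseChange K).Point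

namespace EP

variable {K L M : Type} [Field K] [Field L] [Field M]

noncomputable instance : AddCommGroup (EP K) :=
  letI := Classical.decEq K
  inferInstanceAs (AddCommGroup (W0.toAffine.baseChange K).Point)

/-- The map induced by a homomorphism of fields. -/
noncomputable def mp (f : K →+* L) : EP K →+ EP L :=
  letI := Classical.decEq K
  letI := Classical.decEq L
  Point.map (W' := W0.toAffine) f.toIntAlgHom

theorem mp_inj (f : K →+* L) : Function.Injective (mp f) :=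
  letI := Classical.decEq K
  letI := Classical.decEq L
  Point.map_injective (W' := W0.toAffine) f.toIntAlgHom

theorem mp_mp (f : K →+* L) (g : L →+* M) (P : EP K) : mp g (mp f P) = mp (g.comp f) P := by
  cases P <;> rfl

theorem mp_id (P : EP K) : mp (RingHom.id K) P = P := by
  cases P <;> rfl

theorem eqn (x y : K) : (W0.toAffine.baseChange K).Equation x y ↔ y ^ 2 + y = x ^ 3 := by
  rw [equation_iff]
  simp [W0]

theorem negY_eq [CharP K 2] (x y : K) : (W0.toAffine.baseChange K).negY x y = y + 1 := by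
  simp [negY, W0, CharTwo.sub_eq_add, CharTwo.neg_eq]

variable [CharP K 2] [CharP L 2] [CharP M 2]

theorem ns {x y : K} (h : y ^ 2 + y = x ^ 3) : (W0.toAffine.baseChange K).Nonsingular x y := by
  rw [nonsingular_iff, eqn, ← negY, negY_eq]
  exact ⟨h, .inr (by simp)⟩

/-- The affine point with coordinates `x` and `y`. -/
def ap (x y : K) (h : y ^ 2 + y = x ^ 3) : EP K := Point.some x y (ns h)

variable {x y x' y' x₁ y₁ x₂ y₂ x₃ y₃ : K}

theorem cases (P : EP K) : P = 0 ∨ ∃ x y h, P = ap x y h := by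
  rcases P with _ | ⟨x, y, h⟩
  · exact .inl rfl
  · exact .inr ⟨x, y, (eqn x y).1 h.1, rfl⟩

theorem ap_ne (h : y ^ 2 + y = x ^ 3) : ap x y h ≠ 0 := Point.some_ne_zero _

theorem ap_inj {h : y ^ 2 + y = x ^ 3} {h' : y' ^ 2 + y' = x' ^ 3} :
    ap x y h = ap x' y' h' ↔ x = x' ∧ y = y' := by
  unfold ap
  exact ⟨fun e => Point.some.inj e, fun ⟨a, b⟩ => by subst a b; rfl⟩

theorem eq_map (f : K →+* L) (h : y ^ 2 + y = x ^ 3) : f y ^ 2 + f y = f x ^ 3 := by
  rw [← map_pow, ← map_add, h, map_pow]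

theorem mp_ap (f : K →+* L) (h : y ^ 2 + y = x ^ 3) :
    mp f (ap x y h) = ap (f x) (f y) (eq_map f h) := rfl

theorem mp_congr {f g : K →+* L} {h : y ^ 2 + y = x ^ 3} (hx : f x = g x) (hy : f y = g y) :
    mp f (ap x y h) = mp g (ap x y h) := by
  rw [mp_ap, mp_ap, ap_inj]
  exact ⟨hx, hy⟩

theorem eq_neg (h : y ^ 2 + y = x ^ 3) : (y + 1) ^ 2 + (y + 1) = x ^ 3 := by grind

theorem neg_ap (h : y ^ 2 + y = x ^ 3) : -ap x y h = ap x (y + 1) (eq_neg h) := by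
  change Point.some _ _ _ = Point.some _ _ _
  simp only [negY_eq]

theorem root (h : y ^ 2 + y = y' ^ 2 + y') : y = y' ∨ y = y' + 1 := by
  have : (y - y') * (y - (y' + 1)) = 0 := by grind
  simpa only [mul_eq_zero, sub_eq_zero] using this

theorem eq_or_neg (h : y ^ 2 + y = x ^ 3) (h' : y' ^ 2 + y' = x ^ 3) :
    ap x y h = ap x y' h' ∨ ap x y h = -ap x y' h' := by
  rw [neg_ap, ap_inj, ap_inj]
  simpa using root (h.trans h'.symm)

/-- Three points on a line. -/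
structure Col (x₁ y₁ x₂ y₂ x₃ y₃ l m : K) : Prop where
  a : y₁ = l * x₁ + m
  b : y₂ = l * x₂ + m
  c : y₃ = l * x₃ + m
  e1 : x₁ + x₂ + x₃ = l ^ 2
  e2 : x₁ * x₂ + x₁ * x₃ + x₂ * x₃ = l

theorem sum_of_col {h₁ : y₁ ^ 2 + y₁ = x₁ ^ 3} {h₂ : y₂ ^ 2 + y₂ = x₂ ^ 3}
    {h₃ : y₃ ^ 2 + y₃ = x₃ ^ 3} {l m : K} (c : Col x₁ y₁ x₂ y₂ x₃ y₃ l m) :
    ap x₁ y₁ h₁ + ap x₂ y₂ h₂ + ap x₃ y₃ h₃ = 0 := by
  letI := Classical.decEq K
  obtain ⟨a, b, c, e1, e2⟩ := c
  have n : ¬(x₁ = x₂ ∧ y₁ = (W0.toAffine.baseChange K).negY x₂ y₂) := fun ⟨u, v⟩ => by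
    rw [negY_eq, a, b, u] at v
    simp at v
  have s : (W0.toAffine.baseChange K).slope x₁ x₂ y₁ y₂ = l := by
    by_cases u : x₁ = x₂
    · rw [slope_of_Y_ne u fun v => n ⟨u, v⟩, negY_eq]
      subst u
      simp only [W0, CharTwo.sub_eq_add]
      rw [div_eq_iff (by rw [← add_assoc, CharTwo.add_self_eq_zero]; simp)]
      simp
      grind
    · rw [slope_of_X_ne u, div_eq_iff (sub_ne_zero.2 u), a, b]
      ring
  rw [add_eq_zero_iff_eq_neg, neg_ap]
  refine (Point.add_some n).trans ?_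
  have e : (W0.toAffine.baseChange K).addX x₁ x₂ l = x₃ := by
    simp [addX, W0]
    linear_combination -e1
  change Point.some _ _ _ = Point.some _ _ _
  simp only [s, addY, negAddY, e, negY_eq, Point.some.injEq, true_and]
  linear_combination a - c

theorem col_of_sum {h₁ : y₁ ^ 2 + y₁ = x₁ ^ 3} {h₂ : y₂ ^ 2 + y₂ = x₂ ^ 3}
    {h₃ : y₃ ^ 2 + y₃ = x₃ ^ 3} (h : ap x₁ y₁ h₁ + ap x₂ y₂ h₂ + ap x₃ y₃ h₃ = 0) :
    ∃ l m, Col x₁ y₁ x₂ y₂ x₃ y₃ l m := by
  have key : ∀ l : K, y₂ = l * x₂ + (y₁ + l * x₁) →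
      x₁ * x₂ + (x₁ + x₂) * (l ^ 2 + x₁ + x₂) = l → ∃ l m, Col x₁ y₁ x₂ y₂ x₃ y₃ l m := fun l a b => by
    have q : (l * (l ^ 2 + x₁ + x₂) + (y₁ + l * x₁)) ^ 2 + (l * (l ^ 2 + x₁ + x₂) + (y₁ + l * x₁)) =
        (l ^ 2 + x₁ + x₂) ^ 3 := by grind
    have c : Col x₁ y₁ x₂ y₂ (l ^ 2 + x₁ + x₂) (l * (l ^ 2 + x₁ + x₂) + (y₁ + l * x₁)) l
        (y₁ + l * x₁) := ⟨by grind, a, rfl, by grind, by grind⟩
    obtain ⟨u, v⟩ := ap_inj.1 (add_left_cancel (h.trans (sum_of_col (h₃ := q) c).symm))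
    exact ⟨_, _, u ▸ v ▸ c⟩
  by_cases u : x₁ = x₂
  · subst u
    rcases eq_or_neg h₁ h₂ with v | v
    · obtain ⟨-, rfl⟩ := ap_inj.1 v
      exact key (x₁ ^ 2) (by grind) (by grind)
    · rw [v, neg_add_cancel, zero_add] at h
      exact (ap_ne _ h).elim
  · have u' : x₁ + x₂ ≠ 0 := by rwa [← CharTwo.sub_eq_add, sub_ne_zero]
    obtain ⟨l, hl⟩ : ∃ l, y₁ + y₂ = l * (x₁ + x₂) := ⟨_, (div_mul_cancel₀ _ u').symm⟩
    exact key l (by grind) (mul_left_cancel₀ u' (by grind))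

theorem two_ap (h : y ^ 2 + y = x ^ 3) :
    mp (frobenius K 2) (mp (frobenius K 2) (ap x y h)) + ap x y h + ap x y h = 0 := by
  rw [add_rotate, mp_ap, mp_ap]
  refine sum_of_col (l := x ^ 2) (m := y + x ^ 3) ⟨?_, ?_, ?_, ?_, ?_⟩ <;>
    try simp only [frobenius_def]
  all_goals grind

theorem fr_two (P : EP K) : mp (frobenius K 2) (mp (frobenius K 2) P) = (-2 : ℤ) • P := by
  rcases cases P with rfl | ⟨x, y, h, rfl⟩
  · simp
  · rw [neg_smul, two_smul, eq_neg_iff_add_eq_zero, ← add_assoc, two_ap]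

/-- The Frobenius map of even exponent is a multiplication. -/
theorem fr_even (j : ℕ) (P : EP K) : mp (iterateFrobenius K 2 (2 * j)) P = (-2 : ℤ) ^ j • P := by
  induction j with
  | zero => simpa using mp_id P
  | succ j ih =>
    rw [pow_succ', mul_smul, ← ih, ← fr_two, mp_mp, mp_mp]
    congr 2
    ext a
    simp only [iterateFrobenius_def, RingHom.comp_apply, frobenius_def]
    ring

theorem fr_of {f : K →+* K} {j : ℕ} (h : ∀ c, f c = c ^ 2 ^ (2 * j)) (P : EP K) :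
    mp f P = (-2 : ℤ) ^ j • P := by
  rw [← fr_even, show f = iterateFrobenius K 2 (2 * j) from RingHom.ext h]

theorem pow_inj (j : ℕ) {P Q : EP K} (h : (-2 : ℤ) ^ j • P = (-2 : ℤ) ^ j • Q) : P = Q :=
  mp_inj _ (by rwa [fr_even, fr_even])

theorem pow_ap (j : ℕ) (h : y ^ 2 + y = x ^ 3) :
    ∃ h', (-2 : ℤ) ^ j • ap x y h = ap (x ^ 2 ^ (2 * j)) (y ^ 2 ^ (2 * j)) h' :=
  ⟨_, (fr_even j _).symm.trans (mp_ap _ h)⟩

theorem mem_range (f : K →+* L) {x y : L} (h : y ^ 2 + y = x ^ 3) :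
    ap x y h ∈ (mp f).range ↔ x ∈ f.range ∧ y ∈ f.range := by
  constructor
  · rintro ⟨P, e⟩
    rcases cases P with rfl | ⟨a, b, h', rfl⟩
    · exact (ap_ne _ ((map_zero _).symm.trans e).symm).elim
    · rw [mp_ap, ap_inj] at e
      exact ⟨⟨a, e.1⟩, b, e.2⟩
  · rintro ⟨⟨a, rfl⟩, b, rfl⟩
    exact ⟨ap a b (f.injective (by simpa using h)), rfl⟩

theorem exists_y [IsAlgClosed K] (c : K) : ∃ y, y ^ 2 + y = c := by
  have e : (Polynomial.X ^ 2 + Polynomial.X - Polynomial.C c : Polynomial K).degree = 2 := by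
    compute_degree!
  obtain ⟨y, h⟩ := IsAlgClosed.exists_root _ (e.trans_ne two_ne_zero)
  exact ⟨y, by simpa [sub_eq_zero] using h⟩

theorem mem_range' [IsAlgClosed K] (f : K →+* L) {x y : L} (h : y ^ 2 + y = x ^ 3) :
    ap x y h ∈ (mp f).range ↔ x ∈ f.range := by
  refine (mem_range f h).trans (and_iff_left_of_imp ?_)
  rintro ⟨a, rfl⟩
  obtain ⟨b, hb⟩ := exists_y (a ^ 3)
  rcases root (h.trans (eq_map f hb).symm) with e | e
  · exact ⟨b, e.symm⟩
  · exact ⟨b + 1, by simp [e]⟩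

end EP

variable (K : Type) [Field K]

/-- The points killed by `N`. -/
noncomputable def tor (N : ℤ) : AddSubgroup (EP K) := (zsmulAddGroupHom N).ker

variable {K} in
theorem mem_tor {N : ℤ} {P : EP K} : P ∈ tor K N ↔ N • P = 0 := Iff.rfl

end Pool.Agent.P.MP_16b5eb_nt.T1
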