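import Pool.Agent.P.MP_16b5eb_nt.T1.IfA

/-! Step LANG. -/

set_option autoImplicit false

namespace Pool.Agent.P.MP_16b5eb_nt.T1

open Polynomial EP Finset
open scoped IntermediateField Classical

namespace LANGx

variable {R Ω : Type} [Field R] [Field Ω] [Algebra R Ω]

/-- The equation of the first coordinate. -/
noncomputable def pp (n e : ℕ) (ξ : R) : R[X] :=
  X ^ (2 * 2 ^ n + 1) +
    (∑ i ∈ range n, X ^ (3 * 2 ^ i) + C (e : R) + X ^ (2 ^ n + 2) + C ξ * (X + X ^ 2 ^ n) ^ 2)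

lemma pp_monic {n : ℕ} (hn : 1 ≤ n) (e : ℕ) (ξ : R) : (pp n e ξ).Monic := by
  have h : 2 ^ 1 ≤ 2 ^ n := Nat.pow_le_pow_right two_pos hn
  refine monic_X_pow_add (degree_le_natDegree.trans_lt (Nat.cast_lt.2 (Nat.lt_succ_of_le ?_)))
  refine natDegree_add_le_of_degree_le (natDegree_add_le_of_degree_le (natDegree_add_le_of_degree_le
    (natDegree_sum_le_of_forall_le _ _ fun i hi => ?_) (by simp)) (by simp; omega)) ?_
  · have : 2 ^ (i + 1) ≤ 2 ^ n := Nat.pow_le_pow_right two_pos (mem_range.1 hi)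
    rw [natDegree_X_pow]
    omega
  · refine (natDegree_C_mul_le _ _).trans (natDegree_pow_le_of_le 2
      (natDegree_add_le_of_degree_le (natDegree_X_le.trans (by omega)) (by simp)))

lemma pp_aeval (n e : ℕ) (ξ : R) (u : Ω) : aeval u (pp n e ξ) = u ^ (2 * 2 ^ n + 1) +
    (∑ i ∈ range n, u ^ (3 * 2 ^ i) + e + u ^ (2 ^ n + 2) + algebraMap R Ω ξ * (u + u ^ 2 ^ n) ^ 2) := by
  simp [pp]

lemma pp_der [CharP R 2] (n e : ℕ) (ξ : R) :
    derivative (pp (n + 1) e ξ) = (X + X ^ 2 ^ (n + 1)) ^ 2 := by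
  have h : ((3 : ℕ) : R) = 1 := by
    rw [show 3 = 2 + 1 from rfl, Nat.cast_add, CharP.cast_eq_zero, zero_add, Nat.cast_one]
  rw [CharTwo.add_sq, pp, sum_range_succ', ← pow_mul, mul_comm (2 ^ (n + 1))]
  simp [derivative_X_pow, derivative_sq, CharTwo.two_eq_zero, h, add_comm, -Nat.cast_ofNat,
    pow_succ' 2]

lemma sep {p : R[X]} {u : Ω} (h : aeval u p = 0) (h' : aeval u (derivative p) ≠ 0) :
    IsSeparable R u := by
  have i : IsIntegral R u := IsAlgebraic.isIntegral ⟨p, by rintro rfl; simp at h', h⟩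
  obtain ⟨g, rfl⟩ := minpoly.dvd R u h
  exact (separable_iff_derivative_ne_zero (minpoly.irreducible i)).2 fun e => by simp [e] at h'

lemma tel [CharP Ω 2] (v : Ω) (n : ℕ) : ∑ i ∈ range n, (v ^ 2 + v) ^ 2 ^ i = v ^ 2 ^ n + v := by
  induction n with
  | zero => simp [CharTwo.add_self_eq_zero]
  | succ n ih =>
    rw [sum_range_succ, ih, add_pow_char_pow, ← pow_mul, ← pow_succ']
    grind

lemma exr [IsAlgClosed R] [IsAlgClosed Ω] {n : ℕ} (hn : 1 ≤ n) (e : ℕ) {ξ : Ω}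
    (h : ξ ∉ (algebraMap R Ω).range) : ∃ u : Ω, aeval u (pp n e ξ) = 0 ∧ u ^ 2 ^ n ≠ u := by
  by_contra! c
  have q : 1 < 2 ^ n := Nat.one_lt_two_pow (by omega)
  obtain ⟨a, ha⟩ := IsAlgClosed.exists_root (X ^ 2 ^ n + X - 1 : R[X]) (by
    rw [add_sub_assoc, degree_add_eq_left_of_degree_lt] <;> rw [degree_X_pow]
    · simp
    · exact (degree_X_sub_C 1).trans_lt (by exact_mod_cast q))
  have ha' : algebraMap R Ω a + algebraMap R Ω a ^ 2 ^ n = 1 := by
    simpa [sub_eq_zero, add_comm] using congrArg (algebraMap R Ω) ha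
  have m : algebraMap R Ω a ∈ (algebraMap R Ω).range := ⟨a, rfl⟩
  have h1 : eval (algebraMap R Ω a) (pp n e ξ) ∈ (algebraMap R Ω).range := by
    rw [(IsAlgClosed.splits _).eval_eq_prod_roots_of_monic (pp_monic hn e ξ)]
    refine multiset_prod_mem _ fun z hz => ?_
    obtain ⟨u, hu, rfl⟩ := Multiset.mem_map.1 hz
    have i : IsAlgebraic R u := ⟨X ^ 2 ^ n - X, FiniteField.X_pow_card_sub_X_ne_zero R q, by
      simp [c u (isRoot_of_mem_roots hu)]⟩
    exact sub_mem m (minpoly.mem_range_of_degree_eq_one _ _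
      (IsAlgClosed.degree_eq_one_of_irreducible R (minpoly.irreducible i.isIntegral)))
  rw [← coe_aeval_eq_eval, pp_aeval, ha', one_pow, mul_one] at h1
  exact h ((add_mem_cancel_left (add_mem (add_mem (sum_mem fun _ _ => pow_mem m _) (natCast_mem _ e))
    (pow_mem m _))).1 ((add_mem_cancel_left (pow_mem m _)).1 h1))

end LANGx

open LANGx in
theorem p_LANG :
    S_LANG := by
  intro k Ω _ _ _ _ _ _ _ j ε ξ η h hj hε hξ
  obtain ⟨e, he⟩ : ∃ e : ℕ, ∀ (u v : Ω) h', ∃ h'', ε • ap u v h' = ap u (v + 1 + e) h'' := by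
    rcases hε with rfl | rfl
    · exact ⟨1, fun u v h' => ⟨by grind, by rw [one_smul, ap_inj]; grind⟩⟩
    · exact ⟨0, fun u v h' => ⟨by grind, by rw [neg_smul, one_smul, neg_ap, ap_inj]; simp⟩⟩
  obtain ⟨u, h1, h2⟩ := exr (n := 2 * j) (by omega) e hξ
  obtain ⟨v, hv⟩ := exists_y (u ^ 3)
  have s : ∀ (F : Type) [Field F] [Algebra F Ω], ξ ∈ (algebraMap F Ω).range → IsSeparable F u := by
    rintro F _ _ ⟨ξ, rfl⟩
    have := (algebraMap F Ω).charP (algebraMap F Ω).injective 2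
    obtain ⟨n, hn⟩ : ∃ n, 2 * j = n + 1 := ⟨2 * j - 1, by omega⟩
    refine sep (p := pp (2 * j) e ξ) (by simpa only [pp_aeval] using! h1) ?_
    rw [hn, pp_der, ← hn]
    simpa [CharTwo.add_eq_zero] using h2.symm
  obtain ⟨e1, e2⟩ := he u v hv
  obtain ⟨e3, e4⟩ := pow_ap j hv
  have t := tel v (2 * j)
  simp only [hv, ← pow_mul] at t
  rw [pp_aeval, t, pow_succ, pow_add, pow_mul'] at h1
  have r : (ε - (-2) ^ j) • ap u v hv = ap u _ e1 + ap _ _ (eq_neg e3) := by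
    rw [sub_smul, e2, e4, sub_eq_add_neg, neg_ap]
  rcases cases ((ε - (-2) ^ j) • ap u v hv) with z | ⟨x, y, h', z⟩
  · rw [sub_smul, e2, e4, sub_eq_zero, ap_inj] at z
    exact (h2 z.1.symm).elim
  obtain ⟨l, m, c⟩ := col_of_sum (h₃ := eq_neg h') (by rw [← r, z, ← neg_ap h', add_neg_cancel])
  obtain rfl : x = ξ := by
    have n : (u + u ^ 2 ^ (2 * j)) ^ 2 ≠ 0 := by simpa [CharTwo.add_eq_zero] using h2.symm
    have := c.a
    have := c.b
    have := c.e1
    exact mul_right_cancel₀ n (by simp only [Algebra.algebraMap_self, RingHom.id_apply] at h1; grind)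
  rcases eq_or_neg h' h with w | w
  · exact ⟨u, v, hv, z.trans w, s⟩
  · exact ⟨u, v + 1, eq_neg hv, by rw [← neg_ap hv, smul_neg, z, w, neg_neg], s⟩

end Pool.Agent.P.MP_16b5eb_nt.T1
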