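import Pool.Agent.P.MP_16b5eb_nt.T1.IfA

/-! Step OM. -/

set_option autoImplicit false

namespace Pool.Agent.P.MP_16b5eb_nt.T1

open Polynomial EP Finset
open scoped IntermediateField Classical

theorem p_OM :
    S_OM := by
  intro k _
  have a1 : Algebra.IsAlgebraic k[X] (RatFunc k) := IsLocalization.isAlgebraic _ (nonZeroDivisors k[X])
  have h1 : Algebra.trdeg k (RatFunc k) = 1 := by
    rw [← trdeg_add_eq k k[X] (A := RatFunc k), Polynomial.trdeg_of_isDomain, trdeg_eq_zero,
      add_zero]
  have h2 : Algebra.trdeg k (AlgebraicClosure (RatFunc k)) = 1 := by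
    rw [← trdeg_add_eq k (RatFunc k) (A := AlgebraicClosure (RatFunc k)), h1, trdeg_eq_zero,
      add_zero]
  refine ⟨AlgebraicClosure (RatFunc k), inferInstance, inferInstance, inferInstance,
    fun t ht => ?_, algebraMap (RatFunc k) _ RatFunc.X, ?_⟩
  · have h3 := ((algebraicIndependent_unique_type_iff (x := fun _ : Unit => t)).2
      ht).isTranscendenceBasis_of_lift_trdeg_le_of_finite (by simpa using h2.le)
    have h4 := h3.isAlgebraic_field
    rwa [Set.range_const] at h4
  · exact (transcendental_algebraMap_iff (RingHom.injective _)).2 RatFunc.transcendental_X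

end Pool.Agent.P.MP_16b5eb_nt.T1
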